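import Pool.Graph.R_seed8.Y261.CH.Core
import Pool.Graph.R_seed8.Y843.CH.Cls

/-!
# Chen's theorem inside sifted sets: the local data

The integers `w` which are sifted by the classes `-h`, `h ∈ H`, modulo the primes `z < p < N ^ ε` and by the class
`-h₀` modulo the larger primes are encoded by the integer `vv`: a prime `z < p ≤ N` divides `vv w` if and only if the
class of `w` modulo `p` is forbidden.
-/

set_option autoImplicit false

namespace Pool.Agent.H76.CH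

open Finset Pool.Agent.W23.DC Pool.Agent.Y660.RP Pool.Agent.Y843.CH

/-- the classes `c` modulo `p` with `p ∣ c + h` for some `h ∈ H` -/
def clH (H : Finset ℤ) (p : ℕ) : Finset ℕ :=
  (range p).filter (fun c => ∃ h ∈ H, (p : ℤ) ∣ (c : ℤ) + h)

theorem mem_clH {H : Finset ℤ} {p m : ℕ} (hp : 0 < p) :
    m % p ∈ clH H p ↔ ∃ h ∈ H, (p : ℤ) ∣ (m : ℤ) + h := by
  unfold clH
  rw [mem_filter, mem_range]
  constructor
  · rintro ⟨-, h, hh, hd⟩
    refine ⟨h, hh, ?_⟩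
    have e : (m : ℤ) + h = ((m % p : ℕ) : ℤ) + h + p * ((m / p : ℕ) : ℤ) := by
      have := Nat.mod_add_div m p
      have h2 : ((m % p : ℕ) : ℤ) + (p : ℤ) * ((m / p : ℕ) : ℤ) = (m : ℤ) := by exact_mod_cast this
      linarith
    rw [e]
    exact dvd_add hd (dvd_mul_right _ _)
  · rintro ⟨h, hh, hd⟩
    refine ⟨Nat.mod_lt _ hp, h, hh, ?_⟩
    have e : ((m % p : ℕ) : ℤ) + h = (m : ℤ) + h - p * ((m / p : ℕ) : ℤ) := by
      have := Nat.mod_add_div m p
      have h2 : ((m % p : ℕ) : ℤ) + (p : ℤ) * ((m / p : ℕ) : ℤ) = (m : ℤ) := by exact_mod_cast this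
      linarith
    rw [e]
    exact dvd_sub hd (dvd_mul_right _ _)

/-- the class of `-h` -/
theorem exists_class (p : ℕ) (hp : 0 < p) (h : ℤ) : ∃ c < p, (p : ℤ) ∣ (c : ℤ) + h := by
  refine ⟨((-h) % (p : ℤ)).toNat, ?_, ?_⟩
  · have h1 : 0 ≤ (-h) % (p : ℤ) := Int.emod_nonneg _ (by omega)
    have h2 : (-h) % (p : ℤ) < p := Int.emod_lt_of_pos _ (by omega)
    omega
  · have h1 : 0 ≤ (-h) % (p : ℤ) := Int.emod_nonneg _ (by omega)
    rw [Int.toNat_of_nonneg h1]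
    have h3 : (-h) % (p : ℤ) + h = -((p : ℤ) * ((-h) / (p : ℤ))) := by
      have := Int.emod_add_mul_ediv (-h) (p : ℤ)
      linarith
    rw [h3]
    exact (dvd_mul_right _ _).neg_right

/-- the number of the classes if the elements of `H` are different modulo `p` -/
theorem card_clH {H : Finset ℤ} {p : ℕ} (hp : 0 < p)
    (hd : ∀ h ∈ H, ∀ h' ∈ H, (p : ℤ) ∣ h - h' → h = h') : (clH H p).card = H.card := by
  classical
  symm
  choose f hf1 hf2 using fun h : ℤ => exists_class p hp h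
  apply card_bij (fun h _ => f h)
  · intro h hh
    unfold clH
    rw [mem_filter, mem_range]
    exact ⟨hf1 h, h, hh, hf2 h⟩
  · intro h hh h' hh' he
    apply hd h hh h' hh'
    have h1 := hf2 h
    have h2 := hf2 h'
    rw [he] at h1
    have := dvd_sub h1 h2
    have e : ((f h' : ℕ) : ℤ) + h - (((f h' : ℕ) : ℤ) + h') = h - h' := by ring
    rwa [e] at this
  · intro c hc
    unfold clH at hc
    rw [mem_filter, mem_range] at hc
    obtain ⟨h1, h, hh, h2⟩ := hc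
    refine ⟨h, hh, ?_⟩
    have h3 := dvd_sub (hf2 h) h2
    have e : ((f h : ℕ) : ℤ) + h - ((c : ℤ) + h) = ((f h : ℕ) : ℤ) - c := by ring
    rw [e] at h3
    have h4 := hf1 h
    obtain ⟨k, hk⟩ := h3
    have : k = 0 := by
      by_contra hk0
      rcases lt_or_gt_of_ne hk0 with h5 | h5
      · nlinarith
      · nlinarith
    subst this
    omega

theorem card_clH_le (H : Finset ℤ) (p : ℕ) (hp : 0 < p) : (clH H p).card ≤ H.card := by
  classical
  choose f hf1 hf2 using fun h : ℤ => exists_class p hp h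
  refine (card_le_card (t := H.image f) ?_).trans card_image_le
  intro c hc
  unfold clH at hc
  rw [mem_filter, mem_range] at hc
  obtain ⟨h1, h, hh, h2⟩ := hc
  rw [mem_image]
  refine ⟨h, hh, ?_⟩
  have h3 := dvd_sub (hf2 h) h2
  have e : ((f h : ℕ) : ℤ) + h - ((c : ℤ) + h) = ((f h : ℕ) : ℤ) - c := by ring
  rw [e] at h3
  have h4 := hf1 h
  obtain ⟨k, hk⟩ := h3
  have : k = 0 := by
    by_contra hk0
    rcases lt_or_gt_of_ne hk0 with h5 | h5
    · nlinarith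
    · nlinarith
  subst this
  omega

/-- the forbidden classes -/
noncomputable def cl (H : Finset ℤ) (h₀ : ℤ) (N : ℕ) (ε : ℝ) (p : ℕ) : Finset ℕ :=
  if (p : ℝ) < (N : ℝ) ^ ε then clH H p else clH {h₀} p

/-- the density of the forbidden classes -/
noncomputable def gg (H : Finset ℤ) (h₀ : ℤ) (N : ℕ) (ε : ℝ) (p : ℕ) : ℝ :=
  ((cl H h₀ N ε p).card : ℝ) / ((p : ℝ) - 1)

/-- the product of the primes `z < p ≤ N` for which the class of `m` is forbidden -/
noncomputable def vv (H : Finset ℤ) (h₀ : ℤ) (N z : ℕ) (ε : ℝ) (m : ℕ) : ℕ :=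
  ∏ p ∈ (Ioc z N).filter (fun p => p.Prime ∧ m % p ∈ cl H h₀ N ε p), p

theorem dvd_vv {H : Finset ℤ} {h₀ : ℤ} {N z : ℕ} {ε : ℝ} {m p : ℕ} (hp : p.Prime) (hz : z < p)
    (hN : p ≤ N) : p ∣ vv H h₀ N z ε m ↔ m % p ∈ cl H h₀ N ε p := by
  unfold vv
  constructor
  · intro h
    rw [Prime.dvd_finsetProd_iff hp.prime] at h
    obtain ⟨q, hq, hpq⟩ := h
    rw [mem_filter, mem_Ioc] at hq
    have : p = q := (Nat.prime_dvd_prime_iff_eq hp hq.2.1).1 hpq
    rw [this]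
    exact hq.2.2
  · intro h
    apply dvd_prod_of_mem (fun p => p)
    rw [mem_filter, mem_Ioc]
    exact ⟨⟨hz, hN⟩, hp, h⟩

theorem sqf_dvd_vv {H : Finset ℤ} {h₀ : ℤ} {N z : ℕ} {ε : ℝ} {m q : ℕ} (hq : Squarefree q)
    (hz : ∀ p ∈ q.primeFactors, z < p) (hN : q ≤ N) :
    q ∣ vv H h₀ N z ε m ↔ ∀ p ∈ q.primeFactors, m % p ∈ cl H h₀ N ε p := by
  have hq0 : q ≠ 0 := hq.ne_zero
  constructor
  · intro h p hp
    have hpp := Nat.prime_of_mem_primeFactors hp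
    have hpq := Nat.dvd_of_mem_primeFactors hp
    exact (dvd_vv hpp (hz p hp) ((Nat.le_of_dvd (Nat.pos_of_ne_zero hq0) hpq).trans hN)).1
      (hpq.trans h)
  · intro h
    rw [← Nat.prod_primeFactors_of_squarefree hq]
    refine (Pool.Agent.Y660.RP.prod_dvd (fun p hp => Nat.prime_of_mem_primeFactors hp) _).2 ?_
    intro p hp
    have hpp := Nat.prime_of_mem_primeFactors hp
    have hpq := Nat.dvd_of_mem_primeFactors hp
    exact (dvd_vv hpp (hz p hp) ((Nat.le_of_dvd (Nat.pos_of_ne_zero hq0) hpq).trans hN)).2 (h p hp)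

/-- The hypotheses on the primes `> z`: they do not divide elements of `H` and differences of elements of `H`. -/
def Big (H : Finset ℤ) (z : ℕ) : Prop :=
  ∀ p : ℕ, p.Prime → z < p → (∀ h ∈ H, ¬ (p : ℤ) ∣ h) ∧ ∀ h ∈ H, ∀ h' ∈ H, (p : ℤ) ∣ h - h' → h = h'

theorem card_cl_le {H : Finset ℤ} {h₀ : ℤ} (hH : h₀ ∈ H) {N : ℕ} {ε : ℝ} {p : ℕ} (hp : 0 < p) :
    (cl H h₀ N ε p).card ≤ H.card := by
  unfold cl
  split_ifs
  · exact card_clH_le H p hp
  · refine (card_clH_le {h₀} p hp).trans ?_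
    rw [card_singleton]
    exact card_pos.2 ⟨h₀, hH⟩

theorem cl_ne_zero {H : Finset ℤ} {h₀ : ℤ} (hH : h₀ ∈ H) {z : ℕ} (hB : Big H z) {N : ℕ} {ε : ℝ} {p : ℕ}
    (hp : p.Prime) (hz : z < p) : ∀ c ∈ cl H h₀ N ε p, c < p ∧ c ≠ 0 := by
  intro c hc
  have key : ∀ H' : Finset ℤ, H' ⊆ H → c ∈ clH H' p → c < p ∧ c ≠ 0 := by
    intro H' hH' h
    unfold clH at h
    rw [mem_filter, mem_range] at h
    obtain ⟨h1, h, hh, h2⟩ := h
    refine ⟨h1, ?_⟩
    rintro rfl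
    apply (hB p hp hz).1 h (hH' hh)
    simpa using h2
  unfold cl at hc
  split_ifs at hc
  · exact key H subset_rfl hc
  · exact key {h₀} (singleton_subset_iff.2 hH) hc

theorem gg_Dg {H : Finset ℤ} {h₀ : ℤ} (hH : h₀ ∈ H) {z : ℕ} {N : ℕ} {ε : ℝ} :
    Dg H.card z ((N : ℝ) ^ ε) 1 (gg H h₀ N ε) := by
  refine ⟨fun p hp hz => ?_, fun p hp hw => ?_⟩
  · have h2 : (2 : ℝ) ≤ p := by exact_mod_cast hp.two_le
    have h1 : (0 : ℝ) < (p : ℝ) - 1 := by linarith
    unfold gg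
    refine ⟨by positivity, ?_⟩
    apply div_le_div_of_nonneg_right _ h1.le
    exact_mod_cast card_cl_le hH hp.pos
  · have h1 : ¬ p ∣ 1 := by
      intro h
      exact hp.one_lt.ne' (Nat.dvd_one.1 h)
    rw [if_neg h1]
    unfold gg cl
    rw [if_neg (not_lt.2 hw), card_clH hp.pos]
    · simp
    · intro a ha b hb _
      rw [mem_singleton] at ha hb
      rw [ha, hb]

/-- the density for the small primes -/
theorem gg_small {H : Finset ℤ} {h₀ : ℤ} {z : ℕ} (hB : Big H z) {N : ℕ} {ε : ℝ} {p : ℕ}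
    (hp : p.Prime) (hz : z < p) (hw : (p : ℝ) < (N : ℝ) ^ ε) :
    gg H h₀ N ε p = H.card / ((p : ℝ) - 1) := by
  unfold gg cl
  rw [if_pos hw, card_clH hp.pos (hB p hp hz).2]

theorem prod_cl_le {H : Finset ℤ} {h₀ : ℤ} (hH : h₀ ∈ H) {N : ℕ} {ε : ℝ} (q : ℕ) :
    ∏ p ∈ q.primeFactors, ((cl H h₀ N ε p).card : ℝ) ≤ (H.card : ℝ) ^ q.primeFactors.card := by
  rw [← prod_const]
  apply prod_le_prod
  · intro p _
    positivity
  · intro p hp
    exact_mod_cast card_cl_le hH (Nat.prime_of_mem_primeFactors hp).pos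

/-- **The remainder terms.** -/
theorem Rr_le {ι : Type} [DecidableEq ι] (Ω : Finset ι) (w : ι → ℕ) {H : Finset ℤ} {h₀ : ℤ} (hH : h₀ ∈ H) {z : ℕ}
    (hB : Big H z) {N : ℕ} {ε : ℝ} (m₀ a : ℕ) (hm₀ : 0 < m₀) (ha : a.Coprime m₀)
    (hm : ∀ p : ℕ, p.Prime → z < p → ¬ p ∣ m₀) (q : ℕ) (hq : Squarefree q)
    (hz : ∀ p ∈ q.primeFactors, z < p) (hN : q ≤ N) (T E : ℝ)
    (hE : ∀ c : ℕ, c < m₀ * q → c.Coprime (m₀ * q) →
      |((Ω.filter (fun i => w i ≡ c [MOD (m₀ * q)])).card : ℝ) - T / (Nat.totient (m₀ * q) : ℝ)| ≤ E) :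
    Rr (Ω.filter (fun i => w i ≡ a [MOD m₀])) (fun i => vv H h₀ N z ε (w i)) (gg H h₀ N ε)
      (T / (Nat.totient m₀ : ℝ)) q ≤ (H.card : ℝ) ^ q.primeFactors.card * E := by
  classical
  have hprod : ∏ p ∈ q.primeFactors, p = q := Nat.prod_primeFactors_of_squarefree hq
  have hE0 : 0 ≤ E := by
    have h1 : 0 < m₀ * q := Nat.mul_pos hm₀ (Nat.pos_of_ne_zero hq.ne_zero)
    rcases Nat.lt_or_ge 1 (m₀ * q) with h2 | h2
    · exact (abs_nonneg _).trans (hE 1 h2 (Nat.coprime_one_left _))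
    · have h3 : m₀ * q = 1 := by omega
      exact (abs_nonneg _).trans (hE 0 h1 (by rw [h3]; exact Nat.coprime_one_right _))
  have key := cls Ω w q.primeFactors (fun p hp => Nat.prime_of_mem_primeFactors hp) (cl H h₀ N ε)
    (fun p hp => cl_ne_zero hH hB (Nat.prime_of_mem_primeFactors hp) (hz p hp)) m₀ a hm₀ ha
    (fun p hp => hm p (Nat.prime_of_mem_primeFactors hp) (hz p hp)) T E
    (by rw [hprod]; exact hE)
  unfold Rr
  rw [filter_filter]
  have e1 : (Ω.filter (fun i => w i ≡ a [MOD m₀] ∧ q ∣ vv H h₀ N z ε (w i))) =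
      Ω.filter (fun i => w i ≡ a [MOD m₀] ∧ ∀ p ∈ q.primeFactors, w i % p ∈ cl H h₀ N ε p) := by
    apply filter_congr
    intro i _
    rw [sqf_dvd_vv hq hz hN]
  have e2 : gp (gg H h₀ N ε) q = ∏ p ∈ q.primeFactors, (((cl H h₀ N ε p).card : ℝ) / ((p : ℝ) - 1)) := by
    conv_lhs => rw [← hprod]
    rw [gp_prod _ _ (fun p hp => Nat.prime_of_mem_primeFactors hp)]
    rfl
  rw [e2]
  have e3 : (((Ω.filter (fun i => w i ≡ a [MOD m₀] ∧ q ∣ vv H h₀ N z ε (w i))).card : ℕ) : ℝ) =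
      (((Ω.filter (fun i => w i ≡ a [MOD m₀] ∧ ∀ p ∈ q.primeFactors, w i % p ∈ cl H h₀ N ε p)).card : ℕ) : ℝ) := by
    rw [e1]
  rw [e3]
  refine key.trans ?_
  exact mul_le_mul_of_nonneg_right (prod_cl_le hH q) hE0

end Pool.Agent.H76.CH
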