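import Pool.Agent.H76.CH.Prep
import Pool.Graph.R_seed8.Y73.CH.Wt

/-!
# Chen's theorem inside sifted sets: the combinatorial part
-/

set_option autoImplicit false

namespace Pool.Agent.H76.CH

open Finset Filter Pool.Agent.W23.DC Pool.Agent.Y660.RP Pool.Agent.Y843.CH

/-- For every prime `p` there is a class different from `0` and the classes of `-h`, `h ∈ H`. -/
def Adm (H : Finset ℤ) : Prop := ∀ p : ℕ, p.Prime → ∃ r : ℤ, ¬ (p : ℤ) ∣ r ∧ ∀ h ∈ H, ¬ (p : ℤ) ∣ r + h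

/-- an admissible class modulo the product of the small primes -/
theorem crt {H : Finset ℤ} (hA : Adm H) (z : ℕ) : ∃ a : ℕ, a.Coprime (primorial z) ∧
    ∀ h ∈ H, ∀ p : ℕ, p.Prime → p ≤ z → ¬ (p : ℤ) ∣ (a : ℤ) + h := by
  classical
  set t := (range (z + 1)).filter Nat.Prime with ht
  have key : ∀ p : ℕ, ∃ r : ℕ, p.Prime → ¬ p ∣ r ∧ ∀ h ∈ H, ¬ (p : ℤ) ∣ (r : ℤ) + h := by
    intro p
    by_cases hp : p.Prime
    · obtain ⟨r, hr1, hr2⟩ := hA p hp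
      obtain ⟨c, -, hc2⟩ := exists_class p hp.pos (-r)
      refine ⟨c, fun _ => ⟨?_, ?_⟩⟩
      · intro h
        apply hr1
        have h1 : (p : ℤ) ∣ (c : ℤ) := by exact_mod_cast h
        have := dvd_sub h1 hc2
        have e : (c : ℤ) - ((c : ℤ) + -r) = r := by ring
        rwa [e] at this
      · intro h hh hd
        apply hr2 h hh
        have := dvd_sub hd hc2
        have e : (c : ℤ) + h - ((c : ℤ) + -r) = r + h := by ring
        rwa [e] at this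
    · exact ⟨0, fun h => absurd h hp⟩
  choose r hr using key
  have hpw : Set.Pairwise (t : Set ℕ) (Function.onFun Nat.Coprime (fun p : ℕ => p)) := by
    intro p hp q hq hpq
    rw [mem_coe, ht, mem_filter] at hp hq
    exact (Nat.coprime_primes hp.2 hq.2).2 hpq
  obtain ⟨a, ha⟩ := Nat.chineseRemainderOfFinset r (fun p => p) t
    (fun p hp => (mem_filter.1 hp).2.ne_zero) hpw
  have hmem : ∀ p : ℕ, p.Prime → p ≤ z → p ∈ t := by
    intro p hp hpz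
    rw [ht, mem_filter, mem_range]
    exact ⟨by omega, hp⟩
  refine ⟨a, ?_, ?_⟩
  · apply Nat.coprime_of_dvd
    intro p hp hpa hpz
    have h1 : p ≤ z := (hp.dvd_primorial_iff).1 hpz
    have h2 : a ≡ r p [MOD p] := ha p (hmem p hp h1)
    exact (hr p hp).1 ((h2.dvd_iff dvd_rfl).1 hpa)
  · intro h hh p hp hpz hd
    have h2 : a ≡ r p [MOD p] := ha p (hmem p hp hpz)
    apply (hr p hp).2 h hh
    have h3 : (p : ℤ) ∣ (r p : ℤ) - a := Nat.modEq_iff_dvd.1 h2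
    have := dvd_add hd h3
    have e : (a : ℤ) + h + ((r p : ℤ) - a) = r p + h := by ring
    rwa [e] at this

/-- the sifted primes -/
noncomputable def Ωs (H : Finset ℤ) (h₀ : ℤ) (N z A B m₀ a₀ : ℕ) (ε : ℝ) : Finset ℕ :=
  (((Ioc A B).filter Nat.Prime).filter (fun w => w ≡ a₀ [MOD m₀])).filter
    (fun w => ∀ p ∈ P1 N z ε, ¬ p ∣ vv H h₀ N z ε w)

open Classical in
/-- the good primes -/
noncomputable def Good (H : Finset ℤ) (h₀ : ℤ) (N A B : ℕ) (ε : ℝ) : Finset ℕ :=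
  (Ioc A B).filter (fun w => w.Prime ∧ ((w : ℤ) + h₀).toNat.primeFactorsList.length ≤ 2 ∧
    (∀ p : ℕ, p.Prime → (p : ℤ) ∣ (w : ℤ) + h₀ → (N : ℝ) ^ (1 / 4 : ℝ) ≤ p) ∧
    ∀ h ∈ H, ∀ p : ℕ, p.Prime → (p : ℤ) ∣ (w : ℤ) + h → (N : ℝ) ^ ε ≤ p)

open Classical in
/-- the values divisible by the square of a prime of middle size -/
noncomputable def Sq (h₀ : ℤ) (N A B : ℕ) : Finset ℕ :=
  (Ioc A B).filter (fun w => ∃ p : ℕ, p.Prime ∧ (p : ℤ) ^ 2 ∣ (w : ℤ) + h₀ ∧ (N : ℝ) ^ (1 / 4 : ℝ) ≤ p ∧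
      (p : ℝ) < (N : ℝ) ^ (667 / 1000 : ℝ))

open Classical in
/-- the values with three prime factors -/
noncomputable def Three (H : Finset ℤ) (h₀ : ℤ) (N z A B m₀ a₀ : ℕ) (ε : ℝ) : Finset ℕ :=
  (Ωs H h₀ N z A B m₀ a₀ ε).filter (fun w => ∃ p₁ p₂ p₃ : ℕ, p₁ ∈ pr N (1 / 4) (667 / 1000) ∧ p₂.Prime ∧
    p₃.Prime ∧ (N : ℝ) ^ (667 / 1000 : ℝ) ≤ p₂ ∧ p₂ ≤ p₃ ∧ (w : ℤ) + h₀ = ((p₁ * (p₂ * p₃) : ℕ) : ℤ))

open Classical in
/-- **Chen's weights.** -/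
theorem comb {H : Finset ℤ} {h₀ : ℤ} (hH : h₀ ∈ H) {N z A B m₀ a₀ : ℕ} {ε : ℝ} (hN2 : 2 ≤ N) (hε1 : ε ≤ 1 / 4)
    (hm₀ : ∀ p : ℕ, p.Prime → p ≤ z → p ∣ m₀)
    (ha₀ : ∀ h ∈ H, ∀ p : ℕ, p.Prime → p ≤ z → ¬ (p : ℤ) ∣ (a₀ : ℤ) + h)
    (hzN : (z : ℝ) < (N : ℝ) ^ ε)
    (hWT : ∀ n : ℕ, 1 ≤ n → n ≤ 3 * N ^ 2 →
      (∀ p : ℕ, p.Prime → p ∣ n → (N : ℝ) ^ (1 / 4 : ℝ) ≤ p) →
      (∀ p : ℕ, p.Prime → p ^ 2 ∣ n → (N : ℝ) ^ (667 / 1000 : ℝ) ≤ p) →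
      n.primeFactorsList.length ≤ 2 ∨ 2 ≤ ((pr N (1 / 4) (667 / 1000)).filter (fun q => q ∣ n)).card ∨
      (((pr N (1 / 4) (667 / 1000)).filter (fun q => q ∣ n)).card = 1 ∧
        ∃ p₁ p₂ p₃ : ℕ, p₁ ∈ pr N (1 / 4) (667 / 1000) ∧ p₂.Prime ∧ p₃.Prime ∧
          (N : ℝ) ^ (667 / 1000 : ℝ) ≤ p₂ ∧ p₂ ≤ p₃ ∧ n = p₁ * (p₂ * p₃)))
    (hA : 1 ≤ (A : ℤ) + h₀) (hB : (B : ℤ) + h₀ ≤ 3 * (N : ℤ) ^ 2) :
    ∑ i ∈ Ωs H h₀ N z A B m₀ a₀ ε, II N ε (vv H h₀ N z ε i) *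
      (1 - 1 / 2 * ∑ q ∈ pr N (1 / 4) (667 / 1000), (if q ∣ vv H h₀ N z ε i then (1 : ℝ) else 0)) ≤
    ((Good H h₀ N A B ε).card : ℝ) + (Sq h₀ N A B).card + 1 / 2 * (Three H h₀ N z A B m₀ a₀ ε).card := by
  have hNr : (1 : ℝ) < N := by exact_mod_cast (by omega : 1 < N)
  have hNε : (N : ℝ) ^ ε ≤ (N : ℝ) ^ (1 / 4 : ℝ) := Real.rpow_le_rpow_of_exponent_le hNr.le hε1
  have hNN : ∀ x : ℝ, x ≤ 1 → (N : ℝ) ^ x ≤ N := by
    intro x hx
    calc (N : ℝ) ^ x ≤ (N : ℝ) ^ (1 : ℝ) := Real.rpow_le_rpow_of_exponent_le hNr.le hx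
      _ = N := Real.rpow_one _
  -- the small prime factors
  have F1 : ∀ i ∈ Ωs H h₀ N z A B m₀ a₀ ε, ∀ h ∈ H, ∀ p : ℕ, p.Prime → (p : ℤ) ∣ (i : ℤ) + h →
      (N : ℝ) ^ ε ≤ p := by
    intro i hi h hh p hp hd
    unfold Ωs at hi
    rw [mem_filter, mem_filter] at hi
    obtain ⟨⟨-, hi1⟩, hi2⟩ := hi
    by_contra hlt
    push Not at hlt
    rcases Nat.lt_or_ge z p with hz | hz
    · have hpN : p ≤ N := by
        have : (p : ℝ) ≤ N := hlt.le.trans (hNN ε (by linarith))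
        exact_mod_cast this
      apply hi2 p (mem_P1.2 ⟨⟨hz, hpN⟩, hp, hlt⟩)
      rw [dvd_vv hp hz hpN]
      unfold cl
      rw [if_pos hlt, mem_clH hp.pos]
      exact ⟨h, hh, hd⟩
    · have h1 := (hi1.of_dvd (hm₀ p hp hz))
      have h2 : (p : ℤ) ∣ (a₀ : ℤ) - i := Nat.modEq_iff_dvd.1 h1
      apply ha₀ h hh p hp hz
      have := dvd_add hd h2
      have e : (i : ℤ) + h + ((a₀ : ℤ) - i) = a₀ + h := by ring
      rwa [e] at this
  have F3 : ∀ i : ℕ, ∀ p : ℕ, p.Prime → (N : ℝ) ^ ε ≤ p → p ≤ N →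
      (p ∣ vv H h₀ N z ε i ↔ (p : ℤ) ∣ (i : ℤ) + h₀) := by
    intro i p hp h1 h2
    have hz : z < p := by
      have : (z : ℝ) < p := by linarith
      exact_mod_cast this
    rw [dvd_vv hp hz h2]
    unfold cl
    rw [if_neg (not_lt.2 h1), mem_clH hp.pos]
    simp
  have hbase : ∀ i ∈ Ωs H h₀ N z A B m₀ a₀ ε, i ∈ Ioc A B ∧ i.Prime := by
    intro i hi
    unfold Ωs at hi
    rw [mem_filter, mem_filter, mem_filter] at hi
    exact hi.1.1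
  have hterm : ∀ i ∈ Ωs H h₀ N z A B m₀ a₀ ε, II N ε (vv H h₀ N z ε i) *
      (1 - 1 / 2 * ∑ q ∈ pr N (1 / 4) (667 / 1000), (if q ∣ vv H h₀ N z ε i then (1 : ℝ) else 0)) ≤
      (if i ∈ Good H h₀ N A B ε then (1 : ℝ) else 0) + (if i ∈ Sq h₀ N A B then (1 : ℝ) else 0) +
      1 / 2 * (if i ∈ Three H h₀ N z A B m₀ a₀ ε then (1 : ℝ) else 0) := by
    intro i hi
    obtain ⟨hiI, hip⟩ := hbase i hi
    have hpos1 : (0 : ℝ) ≤ (if i ∈ Good H h₀ N A B ε then (1 : ℝ) else 0) := by split_ifs <;> norm_num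
    have hpos2 : (0 : ℝ) ≤ (if i ∈ Sq h₀ N A B then (1 : ℝ) else 0) := by split_ifs <;> norm_num
    have hpos3 : (0 : ℝ) ≤ (if i ∈ Three H h₀ N z A B m₀ a₀ ε then (1 : ℝ) else 0) := by split_ifs <;> norm_num
    by_cases hII : ∀ p ∈ pr N ε (1 / 4), ¬ p ∣ vv H h₀ N z ε i
    swap
    · have : II N ε (vv H h₀ N z ε i) = 0 := by
        unfold II
        rw [if_neg hII]
      rw [this, zero_mul]
      linarith
    have hII1 : II N ε (vv H h₀ N z ε i) = 1 := by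
      unfold II
      rw [if_pos hII]
    rw [hII1, one_mul]
    have hsum : ∑ q ∈ pr N (1 / 4) (667 / 1000), (if q ∣ vv H h₀ N z ε i then (1 : ℝ) else 0) =
        (((pr N (1 / 4) (667 / 1000)).filter (fun q => q ∣ vv H h₀ N z ε i)).card : ℝ) := by
      rw [sum_boole]
    rw [hsum]
    set k := ((pr N (1 / 4) (667 / 1000)).filter (fun q => q ∣ vv H h₀ N z ε i)).card with hk
    have hkr : (0 : ℝ) ≤ k := Nat.cast_nonneg _
    rw [mem_Ioc] at hiI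
    obtain ⟨n, hn⟩ : ∃ n : ℕ, (n : ℤ) = (i : ℤ) + h₀ := ⟨((i : ℤ) + h₀).toNat, by omega⟩
    have hn1 : 1 ≤ n := by omega
    have hn3 : n ≤ 3 * N ^ 2 := by
      have : (n : ℤ) ≤ 3 * (N : ℤ) ^ 2 := by omega
      exact_mod_cast this
    have hdn : ∀ p : ℕ, p ∣ n ↔ (p : ℤ) ∣ (i : ℤ) + h₀ := by
      intro p
      rw [← hn]
      exact Int.natCast_dvd_natCast.symm
    have F2 : ∀ p : ℕ, p.Prime → (p : ℤ) ∣ (i : ℤ) + h₀ → (N : ℝ) ^ (1 / 4 : ℝ) ≤ p := by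
      intro p hp hd
      by_contra hlt
      push Not at hlt
      have h1 := F1 i hi h₀ hH p hp hd
      have hpN : p ≤ N := by
        have : (p : ℝ) ≤ N := hlt.le.trans (hNN _ (by norm_num))
        exact_mod_cast this
      apply hII p
      · rw [mem_pr]
        exact ⟨⟨hp.one_lt.le, hpN⟩, hp, (le_tt_iff hN2 hp _).2 h1, (tt_lt_iff hN2 hp _).2 hlt⟩
      · exact (F3 i p hp h1 hpN).2 hd
    by_cases hsq : ∃ p : ℕ, p.Prime ∧ (p : ℤ) ^ 2 ∣ (i : ℤ) + h₀ ∧ (p : ℝ) < (N : ℝ) ^ (667 / 1000 : ℝ)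
    · obtain ⟨p, hp1, hp2, hp3⟩ := hsq
      have hmem : i ∈ Sq h₀ N A B := by
        unfold Sq
        rw [mem_filter, mem_Ioc]
        exact ⟨hiI, p, hp1, hp2, F2 p hp1 ((dvd_pow_self _ two_ne_zero).trans hp2), hp3⟩
      rw [if_pos hmem]
      linarith
    · push Not at hsq
      have hkeq : k = ((pr N (1 / 4) (667 / 1000)).filter (fun q => q ∣ n)).card := by
        rw [hk]
        congr 1
        apply filter_congr
        intro q hq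
        rw [mem_pr] at hq
        have h1 := (le_tt_iff hN2 hq.2.1 _).1 hq.2.2.1
        rw [F3 i q hq.2.1 (by linarith) hq.1.2, hdn]
      rcases hWT n hn1 hn3 (fun p hp hd => F2 p hp ((hdn p).1 hd)) (fun p hp hd => hsq p hp (by
          have : ((p ^ 2 : ℕ) : ℤ) ∣ (i : ℤ) + h₀ := (hdn _).1 hd
          exact_mod_cast this)) with h | h | h
      · have hmem : i ∈ Good H h₀ N A B ε := by
          unfold Good
          rw [mem_filter, mem_Ioc]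
          refine ⟨hiI, hip, ?_, F2, F1 i hi⟩
          have : ((i : ℤ) + h₀).toNat = n := by omega
          rw [this]
          exact h
        rw [if_pos hmem]
        linarith
      · rw [← hkeq] at h
        have : (2 : ℝ) ≤ k := by exact_mod_cast h
        linarith
      · rw [← hkeq] at h
        have hk1 : (k : ℝ) = 1 := by exact_mod_cast h.1
        obtain ⟨p₁, p₂, p₃, g1, g2, g3, g4, g5, g6⟩ := h.2
        have hmem : i ∈ Three H h₀ N z A B m₀ a₀ ε := by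
          unfold Three
          rw [mem_filter]
          exact ⟨hi, p₁, p₂, p₃, g1, g2, g3, g4, g5, by rw [← g6]; exact hn.symm⟩
        rw [if_pos hmem, hk1]
        linarith
  refine (sum_le_sum hterm).trans ?_
  rw [sum_add_distrib, sum_add_distrib, ← mul_sum]
  have hc : ∀ S : Finset ℕ, ∑ i ∈ Ωs H h₀ N z A B m₀ a₀ ε, (if i ∈ S then (1 : ℝ) else 0) ≤ S.card := by
    intro S
    rw [sum_boole]
    have : (Ωs H h₀ N z A B m₀ a₀ ε).filter (fun i => i ∈ S) ⊆ S := fun x hx => (mem_filter.1 hx).2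
    exact_mod_cast card_le_card this
  have h1 := hc (Good H h₀ N A B ε)
  have h2 := hc (Sq h₀ N A B)
  have h3 := hc (Three H h₀ N z A B m₀ a₀ ε)
  linarith

end Pool.Agent.H76.CH
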