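import Pool.Agent.H76.CH.Switch

/-!
# Chen's theorem inside sifted sets

For every admissible set `H` of non-zero shifts and every `h₀ ∈ H` there are at least `c B / (log B) ^ (|H| + 1)` primes
`w` in `(A, B]` such that `w + h₀` has at most two prime factors and no `w + h`, `h ∈ H`, has a prime factor smaller than
`N ^ ε`, `N = ⌊√B⌋`.
-/

set_option autoImplicit false

namespace Pool.Agent.H76.CH

open Finset Filter Pool.Agent.W23.DC Pool.Agent.Y660.RP Pool.Agent.Y843.CH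

/-- growth of the powers of the logarithm -/
theorem ev_log_pow (k : ℕ) (M : ℝ) (hM : 0 < M) :
    ∀ᶠ N : ℕ in atTop, 12 / M * Real.log N ^ k ≤ (N : ℝ) ^ (1 / 4 : ℝ) := by
  have h1 := isLittleO_log_rpow_rpow_atTop (k : ℝ) (by norm_num : (0 : ℝ) < 1 / 4)
  have h3 : (0 : ℝ) < M / 12 := by positivity
  have h4 := tendsto_natCast_atTop_atTop.eventually (h1.def h3)
  filter_upwards [h4, eventually_ge_atTop 1] with N h5 h6
  have hNr : (1 : ℝ) ≤ N := by exact_mod_cast h6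
  have hl := Real.log_nonneg hNr
  rw [Real.rpow_natCast, Real.norm_of_nonneg (by positivity), Real.norm_of_nonneg (by positivity)] at h5
  calc 12 / M * Real.log N ^ k ≤ 12 / M * (M / 12 * (N : ℝ) ^ (1 / 4 : ℝ)) :=
        mul_le_mul_of_nonneg_left h5 (by positivity)
    _ = (N : ℝ) ^ (1 / 4 : ℝ) := by field_simp

theorem ev_sq (s : ℝ) (hs : 0 < s) : ∀ᶠ N : ℕ in atTop, ((N : ℝ) + 1) ^ 2 ≤ (N : ℝ) ^ (2 + s) := by
  have h1 := ((tendsto_rpow_atTop hs).comp tendsto_natCast_atTop_atTop).eventually_ge_atTop (4 : ℝ)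
  filter_upwards [h1, eventually_ge_atTop 1] with N h2 h3
  have hNr : (1 : ℝ) ≤ N := by exact_mod_cast h3
  have h4 : (4 : ℝ) ≤ (N : ℝ) ^ s := h2
  have h5 : (N : ℝ) ^ (2 + s) = (N : ℝ) ^ 2 * (N : ℝ) ^ s := by
    rw [Real.rpow_add (by linarith)]
    norm_num
  rw [h5]
  nlinarith [mul_le_mul_of_nonneg_left h4 (sq_nonneg (N : ℝ))]

theorem rng {N B h s : ℝ} (hN : 16 ≤ N) (hs0 : 0 < s) (hs1 : s ≤ 1 / 10000) (hB : B ≤ (N + 1) ^ 2)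
    (hh : h ≤ N) : (1 + s) * (B + h) ≤ 4 * N ^ 2 := by
  have h2 : B + h ≤ 2 * N ^ 2 := by nlinarith
  have h3 : (0 : ℝ) ≤ N ^ 2 := sq_nonneg _
  have h4 : (1 + s) * (B + h) ≤ (1 + s) * (2 * N ^ 2) := mul_le_mul_of_nonneg_left h2 (by linarith)
  nlinarith

theorem hXX {N B A h s : ℝ} (hs0 : 0 < s) (hA : A ≤ B) (hNA : N ≤ A) (hh1 : -N ≤ h) (hh2 : h ≤ N) :
    (1 + s) * (B + h) - (A + h) / (1 + s) ≤ (B - A) + 4 * s * B := by
  have h1 : (A + h) * (1 - s) ≤ (A + h) / (1 + s) := by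
    have hAh : 0 ≤ A + h := by linarith
    rw [le_div_iff₀ (by linarith)]
    nlinarith [mul_nonneg hAh (sq_nonneg s)]
  have h2 : s * (B + h) ≤ s * (2 * B) := mul_le_mul_of_nonneg_left (by linarith) hs0.le
  have h3 : s * (A + h) ≤ s * (2 * B) := mul_le_mul_of_nonneg_left (by linarith) hs0.le
  nlinarith

theorem errs {κ : ℕ} {B L lB M N2 x : ℝ} (hB : 0 < B) (hL1 : 1 ≤ L) (hLB : L ≤ lB) (hM : 0 < M)
    (hq1 : 10 / M ≤ L) (hN2 : N2 ≤ B) (hx : 12 / M * L ^ (κ + 1) ≤ x) :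
    L * (2 * (B / lB ^ (κ + 3))) ≤ M / 5 * (B / L ^ (κ + 1)) ∧ L * (N2 / L ^ (κ + 3)) ≤ M / 10 * (B / L ^ (κ + 1)) ∧
    3 * (B / x) ≤ M / 4 * (B / L ^ (κ + 1)) := by
  have hL0 : 0 < L := by linarith
  have e3 : L ^ (κ + 3) = L * (L * L ^ (κ + 1)) := by ring
  have key : B / (L * L ^ (κ + 1)) ≤ M / 10 * (B / L ^ (κ + 1)) := by
    rw [div_le_iff₀ hM] at hq1
    have e : B / (L * L ^ (κ + 1)) = (1 / L) * (B / L ^ (κ + 1)) := by
      field_simp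
    rw [e]
    apply mul_le_mul_of_nonneg_right _ (by positivity)
    rw [div_le_div_iff₀ hL0 (by norm_num)]
    linarith
  refine ⟨?_, ?_, ?_⟩
  · have h1 : B / lB ^ (κ + 3) ≤ B / L ^ (κ + 3) := by
      apply div_le_div_of_nonneg_left hB.le (by positivity)
      exact pow_le_pow_left₀ hL0.le hLB _
    have h2 := mul_le_mul_of_nonneg_left h1 (by positivity : 0 ≤ L * 2)
    have e : L * 2 * (B / L ^ (κ + 3)) = 2 * (B / (L * L ^ (κ + 1))) := by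
      rw [e3]
      field_simp
    linarith
  · have e : L * (N2 / L ^ (κ + 3)) = N2 / (L * L ^ (κ + 1)) := by
      rw [e3]
      field_simp
    rw [e]
    exact (div_le_div_of_nonneg_right hN2 (by positivity)).trans key
  · have h2 : B / x ≤ B / (12 / M * L ^ (κ + 1)) := div_le_div_of_nonneg_left hB.le (by positivity) hx
    have e : B / (12 / M * L ^ (κ + 1)) = M / 12 * (B / L ^ (κ + 1)) := by field_simp
    rw [e] at h2
    linarith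

theorem mainterm {κ : ℕ} {ε c₁ φ θ K B L V T₁ T₂ lb η A0 M : ℝ} (hε : 0 < ε) (hc₁ : 0 < c₁) (hφ : 0 < φ)
    (hθ : 0 < θ) (hA0 : 0 < A0) (hB : 0 < B) (hL : 0 < L) (hK : K = 1000 / 998 * A0)
    (hM : M = ε * c₁ / φ * (5 / 10000 * θ * K)) (hV : c₁ / L ^ κ ≤ V)
    (hbr : 5 / 10000 * θ * K * B / L ≤ T₁ * (K * lb - η) - 1 / 2 * (T₂ * (K + η))) :
    M * (B / L ^ (κ + 1)) ≤ ε * (T₁ / φ * V) * (A0 * (1000 / 998 * lb) - η) -
      1 / 2 * (ε * (T₂ / φ * V) * (K + η)) := by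
  have hK0 : 0 < K := by rw [hK]; positivity
  have hV0 : 0 < V := lt_of_lt_of_le (by positivity) hV
  have e1 : ε * (T₁ / φ * V) * (A0 * (1000 / 998 * lb) - η) -
      1 / 2 * (ε * (T₂ / φ * V) * (K + η)) =
      ε / φ * V * (T₁ * (K * lb - η) - 1 / 2 * (T₂ * (K + η))) := by
    rw [hK]
    ring
  rw [e1]
  have h1 : ε / φ * (c₁ / L ^ κ) ≤ ε / φ * V := mul_le_mul_of_nonneg_left hV (by positivity)
  calc M * (B / L ^ (κ + 1)) = ε / φ * (c₁ / L ^ κ) * (5 / 10000 * θ * K * B / L) := by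
        rw [hM, pow_succ]
        field_simp
    _ ≤ ε / φ * V * (T₁ * (K * lb - η) - 1 / 2 * (T₂ * (K + η))) :=
        mul_le_mul h1 hbr (by positivity) (by positivity)

theorem concl {κ : ℕ} {M B L x1 x2 y1 y2 y3 G S Th : ℝ} (_hP : 0 ≤ M * (B / L ^ (κ + 1)))
    (hmain : M * (B / L ^ (κ + 1)) ≤ x1 - 1 / 2 * x2) (hlow : x1 - y1 ≤ G + S + 1 / 2 * Th)
    (hth : Th ≤ x2 + y2) (h1 : y1 ≤ M / 5 * (B / L ^ (κ + 1))) (h2 : y2 ≤ M / 10 * (B / L ^ (κ + 1)))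
    (hS : S ≤ y3) (h3 : y3 ≤ M / 4 * (B / L ^ (κ + 1))) : M / 2 * (B / L ^ (κ + 1)) ≤ G := by
  linarith

theorem range_z {N B : ℕ} {h₀ : ℤ} {K₀ : ℕ} (hBN : B < (N + 1) ^ 2) (hK : 4 * K₀ + 16 ≤ N) (hh : h₀ ≤ K₀) :
    (B : ℤ) + h₀ ≤ 3 * (N : ℤ) ^ 2 := by
  have h1 : (B : ℤ) < ((N : ℤ) + 1) ^ 2 := by exact_mod_cast hBN
  have h2 : (4 * K₀ + 16 : ℤ) ≤ N := by exact_mod_cast hK
  have h4 : (0 : ℤ) ≤ K₀ := Int.natCast_nonneg _
  nlinarith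

open Classical in
theorem chen (H : Finset ℤ) (h₀ : ℤ) (hH : h₀ ∈ H) (h0 : (0 : ℤ) ∉ H) (hAd : Adm H) (θ : ℝ) (hθ : 0 < θ)
    (hθ1 : θ ≤ 1) : ∃ ε c : ℝ, 0 < ε ∧ ε ≤ 1 / 8 ∧ 0 < c ∧ ∃ B₀ : ℕ, ∀ B : ℕ, B₀ ≤ B → ∀ A : ℕ, B ≤ 2 * A →
      (A : ℝ) + θ * B ≤ B → c * B / Real.log B ^ (H.card + 1) ≤ ((Good H h₀ (Nat.sqrt B) A B ε).card : ℝ) := by
  have hκ : 1 ≤ H.card := card_pos.2 ⟨h₀, hH⟩
  obtain ⟨A0, C0, hA0, hcore⟩ := Pool.Agent.Y261.CH.core H.card hκ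
  obtain ⟨K₀, hK₀⟩ : ∃ K₀ : ℕ, ∀ h ∈ H, |h| ≤ K₀ := by
    refine ⟨H.sup Int.natAbs, fun h hh => ?_⟩
    have := Finset.le_sup (f := Int.natAbs) hh
    rw [Int.abs_eq_natAbs]
    exact_mod_cast this
  set κ := H.card with hκd
  set z : ℕ := max C0 (4 * K₀ + 2 * κ + 4) with hz
  have hzC : C0 ≤ z := le_max_left _ _
  have hzK : 4 * K₀ + 2 * κ + 4 ≤ z := le_max_right _ _
  have hB1 : Big H z := big_of hK₀ h0 (by omega)
  have hB2 : Big (H2 H h₀) z := big_of (H2_le hH hK₀) (H2_zero hH h0) (by omega)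
  set m₀ := primorial z with hm₀
  have hm₀pos : 0 < m₀ := primorial_pos z
  have hm₀sq : Squarefree m₀ := squarefree_primorial z
  have hm₀p : ∀ p : ℕ, p.Prime → p ∣ m₀ → p ≤ z := fun p hp hd => hp.dvd_primorial_iff.1 hd
  have hm₀p' : ∀ p : ℕ, p.Prime → p ≤ z → p ∣ m₀ := fun p hp hd => hp.dvd_primorial_iff.2 hd
  have hm₀n : ∀ p : ℕ, p.Prime → z < p → ¬ p ∣ m₀ := fun p hp hd h => by
    have := hm₀p p hp h
    omega
  obtain ⟨a₀, ha₀, ha₀'⟩ := crt hAd z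
  obtain ⟨a₂, -, ha₂⟩ := exists_class m₀ hm₀pos (-(a₀ + h₀))
  have ha₂' : (m₀ : ℤ) ∣ (a₂ : ℤ) - (a₀ + h₀) := by
    have e : (a₂ : ℤ) - (a₀ + h₀) = (a₂ : ℤ) + -(a₀ + h₀) := by ring
    rw [e]
    exact ha₂
  have ha₂c : a₂.Coprime m₀ := by
    apply Nat.coprime_of_dvd
    intro p hp hpa hpm
    apply ha₀' h₀ hH p hp (hm₀p p hp hpm)
    have h1 : (p : ℤ) ∣ (a₂ : ℤ) := by exact_mod_cast hpa
    have h2 : (p : ℤ) ∣ (m₀ : ℤ) := by exact_mod_cast hpm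
    have := dvd_sub h1 (h2.trans ha₂')
    have e : (a₂ : ℤ) - ((a₂ : ℤ) - (a₀ + h₀)) = a₀ + h₀ := by ring
    rwa [e] at this
  set K : ℝ := 1000 / 998 * A0 with hK
  have hK0 : 0 < K := by positivity
  set η : ℝ := K / 2000 with hη
  have hη0 : 0 < η := by positivity
  obtain ⟨ε, hε0, hε8, N₁, hN₁2, hN₁⟩ := hcore z hzC η hη0
  set s : ℝ := θ / 10000 with hs
  have hs0 : 0 < s := by positivity
  have hs1 : s ≤ 1 / 10000 := by rw [hs]; linarith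
  obtain ⟨N₂, hN₂⟩ := partB m₀ κ (κ + 3) z hm₀sq hκ hm₀p s s hs0 hs0
  obtain ⟨N₃, hN₃⟩ := partA m₀ κ (κ + 3) z hm₀sq hκ hm₀p
  obtain ⟨N₄, hN₄⟩ := T_low s hs0
  obtain ⟨c₁, hc₁, hV⟩ := V_low κ z (by omega)
  obtain ⟨N₅, hN₅⟩ := Pool.Agent.Y73.CH.wt
  have hφ : (0 : ℝ) < (Nat.totient m₀ : ℝ) := by exact_mod_cast Nat.totient_pos.2 hm₀pos
  set M : ℝ := ε * c₁ / (Nat.totient m₀ : ℝ) * (5 / 10000 * θ * K) with hM
  have hM0 : 0 < M := by positivity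
  -- conditions on `N`
  have ev1 : ∀ᶠ N : ℕ in atTop, 10 / M + 1 ≤ Real.log N :=
    (Real.tendsto_log_atTop.comp tendsto_natCast_atTop_atTop).eventually_ge_atTop _
  have ev2 := ev_sq s hs0
  have ev3 := ev_log_pow (κ + 1) M hM0
  have ev4 := ev_lt (667 / 1000 + 1 / 4) 2 (by norm_num) 1
  obtain ⟨N₆, hN₆⟩ := eventually_atTop.1 (ev1.and (ev2.and (ev3.and ev4)))
  set N₀ : ℕ := N₁ + N₂ + N₃ + N₄ + N₅ + N₆ + z + 4 * K₀ + 16 with hN₀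
  refine ⟨ε, M / 2, hε0, hε8, by positivity, N₀ ^ 2, fun B hB A hBA hAB => ?_⟩
  set N := Nat.sqrt B with hN
  have hNN : N₀ ≤ N := by rw [hN, Nat.le_sqrt']; exact hB
  have hN2B : N ^ 2 ≤ B := Nat.sqrt_le' B
  have hBN : B < (N + 1) ^ 2 := Nat.lt_succ_sqrt' B
  obtain ⟨q1, q2, q3, q4⟩ := hN₆ N (by omega)
  have hN16 : 16 ≤ N := by omega
  have hN2 : 2 ≤ N := by omega
  have hNr : (16 : ℝ) ≤ N := by exact_mod_cast hN16
  have hNB : N ≤ B := by nlinarith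
  have hBr : (0 : ℝ) < B := by
    have : (N : ℝ) ≤ B := by exact_mod_cast hNB
    linarith
  have hN2Br : (N : ℝ) ^ 2 ≤ B := by exact_mod_cast hN2B
  have hAB' : A ≤ B := by
    have : (A : ℝ) ≤ B := by
      have : 0 ≤ θ * B := by positivity
      linarith
    exact_mod_cast this
  have hNA : N ≤ A := by nlinarith
  set L := Real.log N with hL
  have hL1 : 1 ≤ L := by
    have : 0 < 10 / M := by positivity
    linarith
  have hL0 : 0 < L := by linarith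
  have hLB : L ≤ Real.log B := Real.log_le_log (by linarith) (by exact_mod_cast hNB)
  have hLB2 : Real.log B ≤ (2 + s) * L := by
    rw [hL, ← Real.log_rpow (by linarith)]
    apply Real.log_le_log hBr
    have h1 : (B : ℝ) ≤ ((N : ℝ) + 1) ^ 2 := by exact_mod_cast hBN.le
    exact h1.trans q2
  obtain ⟨hzN, hcoreN⟩ := hN₁ N (by omega)
  -- the integers `A + h₀` and `B + h₀`
  have hKh : |h₀| ≤ (K₀ : ℤ) := hK₀ h₀ hH
  have hKh1 := (abs_le.1 hKh).1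
  have hKh2 := (abs_le.1 hKh).2
  have hK₀N : 4 * K₀ + 16 ≤ N := by omega
  have hA1 : 1 ≤ (A : ℤ) + h₀ := by omega
  have hB3 : (B : ℤ) + h₀ ≤ 3 * (N : ℤ) ^ 2 := range_z hBN hK₀N hKh2
  have hhr1 : -(N : ℝ) ≤ (h₀ : ℝ) := by
    have : -(N : ℤ) ≤ h₀ := by omega
    exact_mod_cast this
  have hhr2 : (h₀ : ℝ) ≤ (N : ℝ) := by
    have : h₀ ≤ (N : ℤ) := by omega
    exact_mod_cast this
  -- the sets
  obtain ⟨E₁, hE₁, hE₁'⟩ := hN₃ N (by omega) A B hAB' hN2B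
  obtain ⟨Ω₂, T₂, E₂, hT₂0, hT₂, hΩ₂, hE₂, hE₂'⟩ := hN₂ N (by omega) ((A : ℝ) + h₀) ((B : ℝ) + h₀)
    (by
      have : ((1 : ℤ) : ℝ) ≤ (((A : ℤ) + h₀ : ℤ) : ℝ) := by exact_mod_cast hA1
      push_cast at this
      linarith)
    (by
      have : (A : ℝ) ≤ B := by exact_mod_cast hAB'
      linarith)
    (by
      have h1 : s * (N : ℝ) ^ 2 ≤ 1 / 10000 * B := mul_le_mul hs1 hN2Br (by positivity) (by norm_num)
      have h2 : (16 : ℝ) * N ≤ (N : ℝ) ^ 2 := by nlinarith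
      linarith)
    (rng hNr hs0 hs1 (by exact_mod_cast hBN.le) hhr2)
  set T₁ : ℝ := (((Ioc A B).filter Nat.Prime).card : ℝ) with hT₁
  set V : ℝ := ∏ p ∈ P1 N z ε, (1 - gg H h₀ N ε p) with hVd
  have hgsmall : ∀ p ∈ P1 N z ε, gg H h₀ N ε p = (κ : ℝ) / ((p : ℝ) - 1) := by
    intro p hp
    obtain ⟨⟨h1, h2⟩, h3, h4⟩ := mem_P1.1 hp
    exact gg_small hB1 h3 h1 h4
  have hgsmall2 : ∀ p ∈ P1 N z ε, gg (H2 H h₀) (-h₀) N ε p = gg H h₀ N ε p := by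
    intro p hp
    obtain ⟨⟨h1, h2⟩, h3, h4⟩ := mem_P1.1 hp
    rw [gg_small hB1 h3 h1 h4, gg_small hB2 h3 h1 h4, card_H2 hH h0]
  have hV2 : ∏ p ∈ P1 N z ε, (1 - gg (H2 H h₀) (-h₀) N ε p) = V := by
    rw [hVd]
    exact prod_congr rfl fun p hp => by rw [hgsmall2 p hp]
  have hVlow : c₁ / L ^ κ ≤ V := hV N (by omega) ε _ hgsmall
  have hV0 : 0 < V := lt_of_lt_of_le (by positivity) hVlow
  have hmem2 : -h₀ ∈ H2 H h₀ := by unfold H2; exact mem_insert_self _ _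
  -- the lower bound
  have hlow := (hcoreN ℕ (((Ioc A B).filter Nat.Prime).filter (fun w => w ≡ a₀ [MOD m₀]))
    (fun w => vv H h₀ N z ε w) (gg H h₀ N ε) (T₁ / (Nat.totient m₀ : ℝ)) 1 (by positivity) one_ne_zero
    (Nat.one_le_pow _ _ (by omega)) (gg_Dg hH)).1
  have hup := (hcoreN (ℕ × ℕ) (Ω₂.filter (fun x => x.1 * x.2 ≡ a₂ [MOD m₀]))
    (fun x => vv (H2 H h₀) (-h₀) N z ε (x.1 * x.2)) (gg (H2 H h₀) (-h₀) N ε) (T₂ / (Nat.totient m₀ : ℝ)) 1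
    (by positivity) one_ne_zero (Nat.one_le_pow _ _ (by omega)) (by
      have := gg_Dg (H := H2 H h₀) (h₀ := -h₀) hmem2 (z := z) (N := N) (ε := ε)
      rw [card_H2 hH h0] at this
      exact this)).2
  rw [hV2, ← hL] at hup
  rw [← hVd, ← hL] at hlow
  have hLv : ∀ q ∈ Lv' z ((N : ℝ) ^ (999 / 1000 : ℝ)), 0 < q ∧ q ≤ N ∧ Squarefree q ∧ ∀ p ∈ q.primeFactors, z < p := by
    intro q hq
    unfold Lv' at hq
    rw [mem_filter, mem_Icc] at hq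
    refine ⟨hq.1.1, ?_, hq.2.1, hq.2.2⟩
    have h1 := (Nat.le_floor_iff (by positivity)).1 hq.1.2
    have h2 : (N : ℝ) ^ (999 / 1000 : ℝ) ≤ N := by
      calc (N : ℝ) ^ (999 / 1000 : ℝ) ≤ (N : ℝ) ^ (1 : ℝ) :=
            Real.rpow_le_rpow_of_exponent_le (by linarith) (by norm_num)
        _ = N := Real.rpow_one _
    exact_mod_cast h1.trans h2
  have hR1 : ∑ q ∈ Lv' z ((N : ℝ) ^ (999 / 1000 : ℝ)),
      Rr (((Ioc A B).filter Nat.Prime).filter (fun w => w ≡ a₀ [MOD m₀])) (fun w => vv H h₀ N z ε w)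
        (gg H h₀ N ε) (T₁ / (Nat.totient m₀ : ℝ)) q ≤ 2 * (B / Real.log B ^ (κ + 3)) := by
    refine le_trans (sum_le_sum fun q hq => ?_) hE₁'
    obtain ⟨h1, h2, h3, h4⟩ := hLv q hq
    exact Rr_le ((Ioc A B).filter Nat.Prime) (fun w => w) hH hB1 m₀ a₀ hm₀pos ha₀ hm₀n q h3 h4 h2 T₁ (E₁ q)
      (hE₁ q h1)
  have hR2 : ∑ q ∈ Lv' z ((N : ℝ) ^ (999 / 1000 : ℝ)),
      Rr (Ω₂.filter (fun x => x.1 * x.2 ≡ a₂ [MOD m₀])) (fun x => vv (H2 H h₀) (-h₀) N z ε (x.1 * x.2))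
        (gg (H2 H h₀) (-h₀) N ε) (T₂ / (Nat.totient m₀ : ℝ)) q ≤ (N : ℝ) ^ 2 / L ^ (κ + 3) := by
    refine le_trans (sum_le_sum fun q hq => ?_) hE₂'
    obtain ⟨h1, h2, h3, h4⟩ := hLv q hq
    have := Rr_le Ω₂ (fun x => x.1 * x.2) hmem2 hB2 (N := N) (ε := ε) m₀ a₂ hm₀pos ha₂c hm₀n q h3 h4 h2 T₂ (E₂ q)
      (hE₂ q h1)
    rw [card_H2 hH h0] at this
    exact this
  -- combinatorics
  have hcomb := comb (H := H) (h₀ := h₀) hH (N := N) (z := z) (A := A) (B := B) (m₀ := m₀) (a₀ := a₀) (ε := ε)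
    hN2 (by linarith) hm₀p' ha₀' hzN (hN₅ N (by omega)) hA1 hB3
  have hthree := three_le (H := H) (h₀ := h₀) (N := N) (z := z) (A := A) (B := B) (m₀ := m₀) (a₀ := a₀) (a₂ := a₂)
    (ε := ε) hN2 hzN hNA ha₂' Ω₂ hΩ₂
  have hthree' : ((Three H h₀ N z A B m₀ a₀ ε).card : ℝ) ≤
      ε * (T₂ / (Nat.totient m₀ : ℝ) * V) * (K + η) + L * ((N : ℝ) ^ 2 / L ^ (κ + 3)) := by
    have h1 : ((Three H h₀ N z A B m₀ a₀ ε).card : ℝ) ≤
      (((Ω₂.filter (fun x => x.1 * x.2 ≡ a₂ [MOD m₀])).filter (fun x =>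
        (∀ p ∈ P1 N z ε, ¬ p ∣ vv (H2 H h₀) (-h₀) N z ε (x.1 * x.2)) ∧
        ∀ p ∈ pr N ε (7 / 20), ¬ p ∣ vv (H2 H h₀) (-h₀) N z ε (x.1 * x.2))).card : ℝ) := by
      exact_mod_cast hthree
    refine (h1.trans (le_of_eq ?_)).trans (hup.trans ?_)
    · congr!
    · have := mul_le_mul_of_nonneg_left hR2 hL0.le
      linarith
  have hlow' : ε * (T₁ / (Nat.totient m₀ : ℝ) * V) * (A0 * (1000 / 998 * LBc) - η) -
      L * (2 * (B / Real.log B ^ (κ + 3))) ≤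
      ((Good H h₀ N A B ε).card : ℝ) + (Sq h₀ N A B).card + 1 / 2 * (Three H h₀ N z A B m₀ a₀ ε).card := by
    refine le_trans ?_ hcomb
    refine le_trans ?_ hlow
    have := mul_le_mul_of_nonneg_left hR1 hL0.le
    linarith
  -- the squares
  have hsq : ((Sq h₀ N A B).card : ℝ) ≤ 3 * (B / (N : ℝ) ^ (1 / 4 : ℝ)) := by
    have h1 := squares N B A hN16 h₀ _ (fun m hm => hm)
    have h2 : ((Sq h₀ N A B).card : ℝ) ≤ 2 * ((B : ℝ) / (N : ℝ) ^ (1 / 4 : ℝ)) + (N : ℝ) ^ (667 / 1000 : ℝ) := by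
      unfold Sq
      exact h1
    have h3 : (N : ℝ) ^ (667 / 1000 : ℝ) ≤ B / (N : ℝ) ^ (1 / 4 : ℝ) := by
      rw [le_div_iff₀ (by positivity), ← Real.rpow_add (by linarith)]
      have h4 : (N : ℝ) ^ (2 : ℝ) = (N : ℝ) ^ 2 := by norm_num
      rw [one_mul, h4] at q4
      linarith
    linarith
  -- the main terms
  have hT₁low := hN₄ B (by nlinarith) A hAB' hBA
  have hDpos : 0 ≤ (B : ℝ) - A - s * B := by
    have h1 : s * B ≤ θ * B := mul_le_mul_of_nonneg_right (by rw [hs]; linarith) hBr.le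
    linarith
  have hT₁low' : ((B : ℝ) - A - s * B) / ((2 + s) * L) ≤ T₁ := by
    refine le_trans ?_ hT₁low
    apply div_le_div_of_nonneg_left hDpos (by linarith) hLB2
  have hX : (1 + s) * ((B : ℝ) + h₀) - ((A : ℝ) + h₀) / (1 + s) ≤ ((B : ℝ) - A) + 4 * s * B :=
    hXX hs0 (by exact_mod_cast hAB') (by exact_mod_cast hNA : (N : ℝ) ≤ A) hhr1 hhr2
  have hnum := Pool.Agent.Y484.CH.num.1
  have hbr := bracket (T₁ := T₁) (T₂ := T₂) (L := L) (B := B) (D := (B : ℝ) - A) (K := K) (lb := LBc) (η := η)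
    (θ := θ) (s := s) (X := (1 + s) * ((B : ℝ) + h₀) - ((A : ℝ) + h₀) / (1 + s)) (N2 := (N : ℝ) ^ 2)
    hL0 hK0 hθ hθ1 hs hT₁low' hT₂ hX hN2Br (by linarith) (by
      have : (0 : ℝ) ≤ A := Nat.cast_nonneg _
      linarith) hBr hη hnum
  -- the errors
  obtain ⟨her1, her2, her3⟩ := errs (κ := κ) hBr hL1 hLB hM0 (by linarith) hN2Br q3
  have hmain := mainterm (κ := κ) hε0 hc₁ hφ hθ hA0 hBr hL0 hK hM hVlow hbr
  have hfin : M / 2 * (B / L ^ (κ + 1)) ≤ ((Good H h₀ N A B ε).card : ℝ) :=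
    concl (by positivity) hmain hlow' hthree' her1 her2 hsq her3
  refine le_trans ?_ hfin
  rw [mul_div_assoc]
  apply mul_le_mul_of_nonneg_left _ (by positivity)
  apply div_le_div_of_nonneg_left hBr.le (by positivity)
  exact pow_le_pow_left₀ hL0.le hLB _

end Pool.Agent.H76.CH
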