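import Pool.Agent.H76.CH.PartB2
import Pool.Graph.R_seed8.Y932.CH.Bvw

/-!
# Chen's theorem inside sifted sets: the level of distribution of the primes
-/

set_option autoImplicit false

namespace Pool.Agent.H76.CH

open Finset Filter Pool.Agent.W23.DC Pool.Agent.Y660.RP Pool.Agent.Y843.CH Pool.Agent.TH423.SH.PSUa

theorem piAP_sub {A B : ℕ} (hAB : A ≤ B) (q c : ℕ) :
    (((Ioc A B).filter Nat.Prime).filter (fun p => p ≡ c [MOD q])).card =
      H343E.piAP B q c - H343E.piAP A q c := by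
  unfold H343E.piAP
  have h : (Icc 1 B).filter (fun p => p.Prime ∧ p ≡ c [MOD q]) =
      (Icc 1 A).filter (fun p => p.Prime ∧ p ≡ c [MOD q]) ∪
      ((Ioc A B).filter Nat.Prime).filter (fun p => p ≡ c [MOD q]) := by
    ext p
    simp only [mem_filter, mem_Icc, mem_union, mem_Ioc]
    constructor
    · rintro ⟨⟨h1, h2⟩, h3, h4⟩
      rcases le_or_gt p A with h | h
      · exact Or.inl ⟨⟨h1, h⟩, h3, h4⟩
      · exact Or.inr ⟨⟨⟨h, h2⟩, h3⟩, h4⟩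
    · rintro (⟨⟨h1, h2⟩, h3, h4⟩ | ⟨⟨⟨h1, h2⟩, h3⟩, h4⟩)
      · exact ⟨⟨h1, h2.trans hAB⟩, h3, h4⟩
      · exact ⟨⟨by omega, h2⟩, h3, h4⟩
  have hd : Disjoint ((Icc 1 A).filter (fun p => p.Prime ∧ p ≡ c [MOD q]))
      (((Ioc A B).filter Nat.Prime).filter (fun p => p ≡ c [MOD q])) := by
    rw [Finset.disjoint_left]
    intro p h1 h2
    simp only [mem_filter, mem_Icc, mem_Ioc] at h1 h2
    omega
  rw [h, card_union_of_disjoint hd]
  push_cast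
  ring

theorem pi1_sub {A B : ℕ} (hAB : A ≤ B) :
    (((Ioc A B).filter Nat.Prime).card : ℝ) = H343E.pi1 B - H343E.pi1 A := by
  have h := piAP_sub hAB 1 0
  have e1 : ((Ioc A B).filter Nat.Prime).filter (fun p => p ≡ 0 [MOD 1]) = (Ioc A B).filter Nat.Prime := by
    apply filter_true_of_mem
    intro p _
    exact Nat.modEq_one
  have e2 : ∀ x, H343E.piAP x 1 0 = H343E.pi1 x := by
    intro x
    unfold H343E.piAP H343E.pi1
    congr 2
    apply filter_congr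
    intro p _
    simp [Nat.modEq_one]
  rw [e1, e2, e2] at h
  exact h

theorem partA (m₀ κ U z : ℕ) (hm₀ : Squarefree m₀) (hκ : 1 ≤ κ) (hz : ∀ p : ℕ, p.Prime → p ∣ m₀ → p ≤ z) :
    ∃ N₀ : ℕ, ∀ N : ℕ, N₀ ≤ N → ∀ A B : ℕ, A ≤ B → N ^ 2 ≤ B →
    ∃ E : ℕ → ℝ,
      (∀ q : ℕ, 0 < q → ∀ c : ℕ, c < m₀ * q → c.Coprime (m₀ * q) →
        |((((Ioc A B).filter Nat.Prime).filter (fun x => x ≡ c [MOD (m₀ * q)])).card : ℝ) -
          (((Ioc A B).filter Nat.Prime).card : ℝ) / (Nat.totient (m₀ * q) : ℝ)| ≤ E q) ∧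
      ∑ q ∈ Lv' z ((N : ℝ) ^ (999 / 1000 : ℝ)), (κ : ℝ) ^ q.primeFactors.card * E q ≤
        2 * (B / Real.log B ^ U) := by
  have hm0 : 0 < m₀ := Nat.pos_of_ne_zero hm₀.ne_zero
  obtain ⟨X₀, hX₀⟩ := Pool.Agent.Y932.CH.bvw m₀ κ U hκ
  refine ⟨max X₀ 1, fun N hN A B hAB hNB => ?_⟩
  have hX : X₀ ≤ B := by
    have h1 : X₀ ≤ N := (le_max_left _ _).trans hN
    have h2 : N ≤ N ^ 2 := Nat.le_self_pow (by norm_num) N
    omega
  refine ⟨fun q => ee B (m₀ * q) + ee A (m₀ * q), ?_, ?_⟩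
  · intro q hq c hc1 hc2
    have h1 := FF_le_ee B (m₀ * q) c hc1 hc2
    have h2 := FF_le_ee A (m₀ * q) c hc1 hc2
    unfold FF at h1 h2
    rw [piAP_sub hAB, pi1_sub hAB]
    have e : H343E.piAP B (m₀ * q) c - H343E.piAP A (m₀ * q) c -
        (H343E.pi1 B - H343E.pi1 A) / (Nat.totient (m₀ * q) : ℝ) =
        (H343E.piAP B (m₀ * q) c - H343E.pi1 B / (Nat.totient (m₀ * q) : ℝ)) -
        (H343E.piAP A (m₀ * q) c - H343E.pi1 A / (Nat.totient (m₀ * q) : ℝ)) := by ring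
    rw [e]
    exact (abs_sub _ _).trans (add_le_add h1 h2)
  · have h1 := sum_Lv (m₀ := m₀) hm₀ hz hκ ((N : ℝ) ^ (999 / 1000 : ℝ)) (by positivity)
      (fun d => ee B d + ee A d) (fun d => add_nonneg (ee_nonneg _ _) (ee_nonneg _ _)) (fun _ => 1)
      (fun d _ => Nat.coprime_one_left d)
    refine h1.trans ?_
    have hQ : ((⌊m₀ * (N : ℝ) ^ (999 / 1000 : ℝ)⌋₊ : ℕ) : ℝ) ≤ m₀ * (B : ℝ) ^ (4995 / 10000 : ℝ) := by
      refine (Nat.floor_le (by positivity)).trans ?_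
      apply mul_le_mul_of_nonneg_left _ (Nat.cast_nonneg _)
      rw [← rpow_sq]
      apply Real.rpow_le_rpow (Nat.cast_nonneg _) _ (by norm_num)
      exact_mod_cast hNB
    have hB := hX₀ B hX B le_rfl _ hQ
    have hA := hX₀ B hX A hAB _ hQ
    calc ∑ d ∈ (Icc 1 ⌊m₀ * (N : ℝ) ^ (999 / 1000 : ℝ)⌋₊).filter (fun d => Squarefree d ∧ (1 : ℕ).Coprime d),
        (κ : ℝ) ^ d.primeFactors.card * (ee B d + ee A d) ≤
        ∑ d ∈ Icc 1 ⌊m₀ * (N : ℝ) ^ (999 / 1000 : ℝ)⌋₊, (κ : ℝ) ^ d.primeFactors.card * (ee B d + ee A d) := by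
          apply sum_le_sum_of_subset_of_nonneg (filter_subset _ _)
          intro d _ _
          exact mul_nonneg (by positivity) (add_nonneg (ee_nonneg _ _) (ee_nonneg _ _))
      _ = ∑ d ∈ Icc 1 ⌊m₀ * (N : ℝ) ^ (999 / 1000 : ℝ)⌋₊, (κ : ℝ) ^ d.primeFactors.card * ee B d +
          ∑ d ∈ Icc 1 ⌊m₀ * (N : ℝ) ^ (999 / 1000 : ℝ)⌋₊, (κ : ℝ) ^ d.primeFactors.card * ee A d := by
          rw [← sum_add_distrib]
          apply sum_congr rfl
          intro d _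
          ring
      _ ≤ _ := by linarith

end Pool.Agent.H76.CH
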