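import Pool.Graph.R_seed8.Y261.CH.Blv
import Pool.Graph.R_seed8.Y48.CH.Mass
import Pool.Graph.R_seed8.Y484.CH.Num

/-!
# Chen's theorem inside sifted sets: the products of three primes
-/

set_option autoImplicit false

namespace Pool.Agent.H76.CH

open Finset Filter Pool.Agent.W23.DC Pool.Agent.Y660.RP Pool.Agent.Y843.CH

/-- lower ends of the intervals for the smallest prime factor -/
noncomputable def lo (N : ℕ) (δ : ℝ) (j : ℕ) : ℝ := (N : ℝ) ^ (1 / 4 : ℝ) * (1 + δ) ^ j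

/-- ends of the intervals, as natural numbers -/
noncomputable def MM (N : ℕ) (δ : ℝ) (j : ℕ) : ℕ := ⌈min (lo N δ j) ((N : ℝ) ^ (667 / 1000 : ℝ))⌉₊ - 1

/-- the primes of an interval -/
noncomputable def PP (N : ℕ) (δ : ℝ) (j : ℕ) : Finset ℕ :=
  (Ioc (MM N δ j) (MM N δ (j + 1))).filter Nat.Prime

open Classical in
/-- the products of two large primes -/
noncomputable def TT (N : ℕ) (δ a b : ℝ) (j : ℕ) : Finset ℕ :=
  (Icc 1 ⌊b / lo N δ j⌋₊).filter (fun n => a / ((1 + δ) * lo N δ j) < n ∧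
    ∃ p₂ p₃ : ℕ, p₂.Prime ∧ p₃.Prime ∧ (N : ℝ) ^ (667 / 1000 : ℝ) ≤ p₂ ∧ p₂ ≤ p₃ ∧ n = p₂ * p₃)

theorem lo_pos {N : ℕ} (hN : 1 ≤ N) {δ : ℝ} (hδ : 0 < δ) (j : ℕ) : 0 < lo N δ j := by
  unfold lo
  have : (0 : ℝ) < N := by exact_mod_cast hN
  positivity

theorem lo_succ (N : ℕ) (δ : ℝ) (j : ℕ) : lo N δ (j + 1) = (1 + δ) * lo N δ j := by
  unfold lo
  rw [pow_succ]
  ring

theorem lo_mono {N : ℕ} (hN : 1 ≤ N) {δ : ℝ} (hδ : 0 < δ) : Monotone (lo N δ) := by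
  apply monotone_nat_of_le_succ
  intro j
  rw [lo_succ]
  have := lo_pos hN hδ j
  nlinarith

/-- the primes of the intervals -/
theorem mem_PP {N : ℕ} (hN : 1 ≤ N) {δ : ℝ} (hδ : 0 < δ) {j p : ℕ} :
    p ∈ PP N δ j ↔ p.Prime ∧ min (lo N δ j) ((N : ℝ) ^ (667 / 1000 : ℝ)) ≤ p ∧
      (p : ℝ) < min (lo N δ (j + 1)) ((N : ℝ) ^ (667 / 1000 : ℝ)) := by
  have hNr : (0 : ℝ) < N := by exact_mod_cast hN
  have hpos : ∀ i, 0 < min (lo N δ i) ((N : ℝ) ^ (667 / 1000 : ℝ)) := fun i =>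
    lt_min (lo_pos hN hδ i) (by positivity)
  have hc : ∀ i, 1 ≤ ⌈min (lo N δ i) ((N : ℝ) ^ (667 / 1000 : ℝ))⌉₊ := fun i =>
    Nat.one_le_iff_ne_zero.2 (Nat.ceil_pos.2 (hpos i)).ne'
  unfold PP MM
  rw [mem_filter, mem_Ioc]
  have h1 := hc j
  have h2 := hc (j + 1)
  constructor
  · rintro ⟨⟨h3, h4⟩, h5⟩
    refine ⟨h5, ?_, ?_⟩
    · exact Nat.ceil_le.1 (by omega)
    · exact Nat.lt_ceil.1 (by omega)
  · rintro ⟨h3, h4, h5⟩
    have h6 := Nat.ceil_le.2 h4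
    have h7 := Nat.lt_ceil.2 h5
    exact ⟨⟨by omega, by omega⟩, h3⟩

theorem PP_disj {N : ℕ} (hN : 1 ≤ N) {δ : ℝ} (hδ : 0 < δ) {i j : ℕ} (hij : i ≠ j) :
    Disjoint (PP N δ i) (PP N δ j) := by
  have key : ∀ i j : ℕ, i < j → Disjoint (PP N δ i) (PP N δ j) := by
    intro i j hij
    rw [Finset.disjoint_left]
    intro p hp hq
    rw [mem_PP hN hδ] at hp hq
    have h1 : lo N δ (i + 1) ≤ lo N δ j := lo_mono hN hδ hij
    have h2 : min (lo N δ (i + 1)) ((N : ℝ) ^ (667 / 1000 : ℝ)) ≤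
        min (lo N δ j) ((N : ℝ) ^ (667 / 1000 : ℝ)) := min_le_min_right _ h1
    linarith [hp.2.2, hq.2.1]
  rcases lt_or_gt_of_ne hij with h | h
  · exact key i j h
  · exact (key j i h).symm

theorem PP_sub {N : ℕ} (hN : 2 ≤ N) {δ : ℝ} (hδ : 0 < δ) (j : ℕ) :
    PP N δ j ⊆ pr N (1 / 4) (667 / 1000) := by
  intro p hp
  rw [mem_PP (by omega) hδ] at hp
  obtain ⟨h1, h2, h3⟩ := hp
  have hNr : (1 : ℝ) ≤ N := by exact_mod_cast (by omega : 1 ≤ N)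
  have h4 : (p : ℝ) < (N : ℝ) ^ (667 / 1000 : ℝ) := lt_of_lt_of_le h3 (min_le_right _ _)
  have h5 : (p : ℝ) < N := by
    refine h4.trans_le ?_
    calc (N : ℝ) ^ (667 / 1000 : ℝ) ≤ (N : ℝ) ^ (1 : ℝ) :=
          Real.rpow_le_rpow_of_exponent_le hNr (by norm_num)
      _ = N := Real.rpow_one _
  have h6 : (N : ℝ) ^ (1 / 4 : ℝ) ≤ p := by
    rcases le_total (lo N δ j) ((N : ℝ) ^ (667 / 1000 : ℝ)) with h | h
    · rw [min_eq_left h] at h2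
      have h7 : lo N δ 0 ≤ lo N δ j := lo_mono (by omega) hδ (Nat.zero_le j)
      have h8 : lo N δ 0 = (N : ℝ) ^ (1 / 4 : ℝ) := by unfold lo; simp
      linarith
    · rw [min_eq_right h] at h2
      linarith
  rw [mem_pr]
  exact ⟨⟨h1.one_lt.le, by exact_mod_cast h5.le⟩, h1, (le_tt_iff hN h1 _).2 h6, (tt_lt_iff hN h1 _).2 h4⟩

open Classical in
/-- the size of `TT` -/
theorem TT_card {N : ℕ} (hN : 2 ≤ N) {δ a b : ℝ} (hδ : 0 < δ) (hb : 0 ≤ b) {j p : ℕ}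
    (hp : p ∈ PP N δ j) : (TT N δ a b j).card ≤
    ((Icc 1 ⌊(1 + δ) * b⌋₊ ×ˢ Icc 1 ⌊(1 + δ) * b⌋₊).filter (fun x : ℕ × ℕ => x.1.Prime ∧ x.2.Prime ∧
      (N : ℝ) ^ (667 / 1000 : ℝ) ≤ (x.1 : ℝ) ∧ x.1 ≤ x.2 ∧ a / (1 + δ) < (p : ℝ) * x.1 * x.2 ∧
      (p : ℝ) * x.1 * x.2 ≤ (1 + δ) * b)).card := by
  have hNr : (1 : ℝ) ≤ N := by exact_mod_cast (by omega : 1 ≤ N)
  have hp' := hp
  rw [mem_PP (by omega) hδ] at hp
  obtain ⟨h1, h2, h3⟩ := hp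
  have hl := lo_pos (by omega : 1 ≤ N) hδ j
  have h4 : lo N δ j ≤ p := by
    rcases le_total (lo N δ j) ((N : ℝ) ^ (667 / 1000 : ℝ)) with h | h
    · rw [min_eq_left h] at h2
      exact h2
    · exfalso
      rw [min_eq_right h] at h2
      exact absurd (lt_of_lt_of_le h3 (min_le_right _ _)) (not_lt.2 h2)
  have h5 : (p : ℝ) < (1 + δ) * lo N δ j := by
    rw [← lo_succ]
    exact lt_of_lt_of_le h3 (min_le_left _ _)
  have hp0 : (0 : ℝ) < p := by exact_mod_cast h1.pos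
  refine (card_le_card (t := (((Icc 1 ⌊(1 + δ) * b⌋₊ ×ˢ Icc 1 ⌊(1 + δ) * b⌋₊).filter
    (fun x : ℕ × ℕ => x.1.Prime ∧ x.2.Prime ∧
      (N : ℝ) ^ (667 / 1000 : ℝ) ≤ (x.1 : ℝ) ∧ x.1 ≤ x.2 ∧ a / (1 + δ) < (p : ℝ) * x.1 * x.2 ∧
      (p : ℝ) * x.1 * x.2 ≤ (1 + δ) * b)).image (fun x : ℕ × ℕ => x.1 * x.2))) ?_).trans card_image_le
  intro n hn
  unfold TT at hn
  rw [mem_filter, mem_Icc] at hn
  obtain ⟨⟨hn1, hn2⟩, hn3, p₂, p₃, g1, g2, g3, g4, rfl⟩ := hn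
  have hn4 : ((p₂ * p₃ : ℕ) : ℝ) ≤ b / lo N δ j := (Nat.le_floor_iff (by positivity)).1 hn2
  have hn5 : (0 : ℝ) < ((p₂ * p₃ : ℕ) : ℝ) := by exact_mod_cast hn1
  rw [le_div_iff₀ hl] at hn4
  rw [div_lt_iff₀ (by positivity)] at hn3
  have k1 : (p : ℝ) * p₂ * p₃ = p * ((p₂ * p₃ : ℕ) : ℝ) := by push_cast; ring
  have k2 : (p : ℝ) * ((p₂ * p₃ : ℕ) : ℝ) ≤ (1 + δ) * b := by
    calc (p : ℝ) * ((p₂ * p₃ : ℕ) : ℝ) ≤ ((1 + δ) * lo N δ j) * ((p₂ * p₃ : ℕ) : ℝ) :=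
          mul_le_mul_of_nonneg_right h5.le hn5.le
      _ = (1 + δ) * (((p₂ * p₃ : ℕ) : ℝ) * lo N δ j) := by ring
      _ ≤ (1 + δ) * b := mul_le_mul_of_nonneg_left hn4 (by linarith)
  have k3 : a / (1 + δ) < (p : ℝ) * ((p₂ * p₃ : ℕ) : ℝ) := by
    rw [div_lt_iff₀ (by linarith)]
    calc a < ((p₂ * p₃ : ℕ) : ℝ) * ((1 + δ) * lo N δ j) := hn3
      _ = (lo N δ j) * ((p₂ * p₃ : ℕ) : ℝ) * (1 + δ) := by ring
      _ ≤ (p : ℝ) * ((p₂ * p₃ : ℕ) : ℝ) * (1 + δ) := by gcongr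
  have k4 : ∀ r s : ℕ, r.Prime → s.Prime → r * s = p₂ * p₃ → r ∈ Icc 1 ⌊(1 + δ) * b⌋₊ := by
    intro r s hr hs hrs
    rw [mem_Icc]
    refine ⟨hr.one_lt.le, Nat.le_floor ?_⟩
    have : (r : ℝ) ≤ (p : ℝ) * ((p₂ * p₃ : ℕ) : ℝ) := by
      rw [← hrs]
      have : r ≤ p * (r * s) := by
        calc r = 1 * (r * 1) := by ring
          _ ≤ p * (r * s) := Nat.mul_le_mul h1.one_lt.le (Nat.mul_le_mul le_rfl hs.one_lt.le)
      exact_mod_cast this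
    linarith
  rw [mem_image]
  refine ⟨(p₂, p₃), ?_, rfl⟩
  rw [mem_filter, mem_product]
  refine ⟨⟨k4 p₂ p₃ g1 g2 rfl, k4 p₃ p₂ g2 g1 (mul_comm _ _)⟩, g1, g2, g3, g4, ?_, ?_⟩
  · show a / (1 + δ) < (p : ℝ) * p₂ * p₃
    rw [k1]; exact k3
  · show (p : ℝ) * p₂ * p₃ ≤ (1 + δ) * b
    rw [k1]; exact k2

open Classical in
/-- the total number of the pairs -/
theorem total_le {N : ℕ} (hN : 2 ≤ N) {δ a b : ℝ} (hδ : 0 < δ) (hb : 0 ≤ b) (J : ℕ) :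
    ∑ j ∈ range J, ((PP N δ j).card : ℝ) * (TT N δ a b j).card ≤
    ∑ p ∈ pr N (1 / 4) (667 / 1000),
      (((Icc 1 ⌊(1 + δ) * b⌋₊ ×ˢ Icc 1 ⌊(1 + δ) * b⌋₊).filter (fun x : ℕ × ℕ => x.1.Prime ∧ x.2.Prime ∧
      (N : ℝ) ^ (667 / 1000 : ℝ) ≤ (x.1 : ℝ) ∧ x.1 ≤ x.2 ∧ a / (1 + δ) < (p : ℝ) * x.1 * x.2 ∧
      (p : ℝ) * x.1 * x.2 ≤ (1 + δ) * b)).card : ℝ) := by
  set F : ℕ → ℝ := fun p => (((Icc 1 ⌊(1 + δ) * b⌋₊ ×ˢ Icc 1 ⌊(1 + δ) * b⌋₊).filter (fun x : ℕ × ℕ => x.1.Prime ∧ x.2.Prime ∧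
      (N : ℝ) ^ (667 / 1000 : ℝ) ≤ (x.1 : ℝ) ∧ x.1 ≤ x.2 ∧ a / (1 + δ) < (p : ℝ) * x.1 * x.2 ∧
      (p : ℝ) * x.1 * x.2 ≤ (1 + δ) * b)).card : ℝ) with hF
  calc ∑ j ∈ range J, ((PP N δ j).card : ℝ) * (TT N δ a b j).card ≤
      ∑ j ∈ range J, ∑ p ∈ PP N δ j, F p := by
        apply sum_le_sum
        intro j _
        rw [← nsmul_eq_mul, ← sum_const]
        apply sum_le_sum
        intro p hp
        exact Nat.cast_le.2 (TT_card hN hδ hb hp)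
    _ = ∑ p ∈ (range J).biUnion (PP N δ), F p := by
        rw [sum_biUnion]
        intro i _ j _ hij
        exact PP_disj (by omega) hδ hij
    _ ≤ ∑ p ∈ pr N (1 / 4) (667 / 1000), F p := by
        apply sum_le_sum_of_subset_of_nonneg
        · intro p hp
          rw [mem_biUnion] at hp
          obtain ⟨j, -, hj⟩ := hp
          exact PP_sub hN hδ j hj
        · intro p _ _
          rw [hF]
          positivity

/-- the error in a class -/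
noncomputable def er (P T : Finset ℕ) (d c : ℕ) : ℝ :=
  |(((P ×ˢ T).filter (fun x => x.1 * x.2 ≡ c [MOD d])).card : ℝ) - ((P.card : ℝ) * T.card) / (Nat.totient d : ℝ)|

theorem exists_r (P T : Finset ℕ) : ∃ r : ℕ → ℕ, ∀ d : ℕ, 0 < d → (r d).Coprime d ∧
    ∀ c < d, c.Coprime d → er P T d c ≤ er P T d (r d) := by
  have key : ∀ d : ℕ, ∃ s : ℕ, 0 < d → s.Coprime d ∧ ∀ c < d, c.Coprime d → er P T d c ≤ er P T d s := by
    intro d
    rcases Nat.eq_zero_or_pos d with h | h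
    · exact ⟨0, fun h' => by omega⟩
    · have hne : ((range d).filter (fun c => c.Coprime d)).Nonempty := by
        rcases Nat.lt_or_ge 1 d with h1 | h1
        · exact ⟨1, by rw [mem_filter, mem_range]; exact ⟨h1, Nat.coprime_one_left _⟩⟩
        · have : d = 1 := by omega
          subst this
          exact ⟨0, by simp⟩
      obtain ⟨s, hs, hs2⟩ := exists_max_image _ (er P T d) hne
      rw [mem_filter] at hs
      exact ⟨s, fun _ => ⟨hs.2, fun c hc hc2 => hs2 c (by rw [mem_filter, mem_range]; exact ⟨hc, hc2⟩)⟩⟩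
  choose r hr using key
  exact ⟨r, hr⟩

/-- sums over the moduli `m₀ q` -/
theorem sum_Lv {z m₀ κ : ℕ} (hm₀ : Squarefree m₀) (hz : ∀ p : ℕ, p.Prime → p ∣ m₀ → p ≤ z) (hκ : 1 ≤ κ) (D : ℝ)
    (hD : 0 ≤ D) (f : ℕ → ℝ) (hf : ∀ d, 0 ≤ f d) (r : ℕ → ℕ) (hr : ∀ d, 0 < d → (r d).Coprime d) :
    ∑ q ∈ Lv' z D, (κ : ℝ) ^ q.primeFactors.card * f (m₀ * q) ≤
      ∑ d ∈ (Icc 1 ⌊m₀ * D⌋₊).filter (fun d => Squarefree d ∧ (r d).Coprime d),
        (κ : ℝ) ^ d.primeFactors.card * f d := by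
  have hm0 : 0 < m₀ := Nat.pos_of_ne_zero hm₀.ne_zero
  have hκr : (1 : ℝ) ≤ κ := by exact_mod_cast hκ
  calc ∑ q ∈ Lv' z D, (κ : ℝ) ^ q.primeFactors.card * f (m₀ * q) ≤
      ∑ q ∈ Lv' z D, (κ : ℝ) ^ (m₀ * q).primeFactors.card * f (m₀ * q) := by
        apply sum_le_sum
        intro q hq
        apply mul_le_mul_of_nonneg_right _ (hf _)
        apply pow_le_pow_right₀ hκr
        apply card_le_card
        unfold Lv' at hq
        rw [mem_filter, mem_Icc] at hq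
        exact Nat.primeFactors_mono (dvd_mul_left _ _) (Nat.mul_pos hm0 (by omega)).ne'
    _ = ∑ d ∈ (Lv' z D).image (fun q => m₀ * q), (κ : ℝ) ^ d.primeFactors.card * f d := by
        rw [sum_image]
        intro x _ y _ h
        exact Nat.eq_of_mul_eq_mul_left hm0 h
    _ ≤ _ := by
        apply sum_le_sum_of_subset_of_nonneg
        · intro d hd
          rw [mem_image] at hd
          obtain ⟨q, hq, rfl⟩ := hd
          unfold Lv' at hq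
          rw [mem_filter, mem_Icc] at hq
          obtain ⟨⟨q1, q2⟩, q3, q4⟩ := hq
          have hpos : 0 < m₀ * q := Nat.mul_pos hm0 (by omega)
          rw [mem_filter, mem_Icc]
          refine ⟨⟨hpos, Nat.le_floor ?_⟩, ?_, hr _ hpos⟩
          · push_cast
            exact mul_le_mul_of_nonneg_left ((Nat.le_floor_iff hD).1 q2) (Nat.cast_nonneg _)
          · apply (Nat.squarefree_mul _).2 ⟨hm₀, q3⟩
            apply Nat.Coprime.symm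
            apply Nat.coprime_of_dvd
            intro p hp hpq hpm
            have h1 := hz p hp hpm
            have h2 := q4 p (Nat.mem_primeFactors.2 ⟨hp, hpq, by omega⟩)
            omega
        · intro d _ _
          exact mul_nonneg (by positivity) (hf d)

end Pool.Agent.H76.CH
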