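import Pool.Agent.H76.CH.PartB

/-!
# Chen's theorem inside sifted sets: the products of three primes, level of distribution
-/

set_option autoImplicit false

namespace Pool.Agent.H76.CH

open Finset Filter Pool.Agent.W23.DC Pool.Agent.Y660.RP Pool.Agent.Y843.CH

theorem rpow_sq {N : ℕ} : ((N ^ 2 : ℕ) : ℝ) ^ (4995 / 10000 : ℝ) = (N : ℝ) ^ (999 / 1000 : ℝ) := by
  have : (0 : ℝ) ≤ N := Nat.cast_nonneg _
  push_cast
  rw [← Real.rpow_natCast, ← Real.rpow_mul this]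
  norm_num

theorem ev_lt (u v : ℝ) (huv : u < v) (C : ℝ) : ∀ᶠ N : ℕ in atTop, C * (N : ℝ) ^ u ≤ (N : ℝ) ^ v := by
  have h := ((tendsto_rpow_atTop (by linarith : (0 : ℝ) < v - u)).comp
    tendsto_natCast_atTop_atTop).eventually_ge_atTop C
  filter_upwards [h, eventually_ge_atTop 1] with N hN h1
  have hNr : (0 : ℝ) < N := by exact_mod_cast h1
  have h2 : C ≤ (N : ℝ) ^ (v - u) := hN
  calc C * (N : ℝ) ^ u ≤ (N : ℝ) ^ (v - u) * (N : ℝ) ^ u :=
        mul_le_mul_of_nonneg_right h2 (by positivity)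
    _ = (N : ℝ) ^ v := by
        rw [← Real.rpow_add hNr]
        ring_nf

open Classical in
theorem partB (m₀ κ U z : ℕ) (hm₀ : Squarefree m₀) (hκ : 1 ≤ κ) (hz : ∀ p : ℕ, p.Prime → p ∣ m₀ → p ≤ z)
    (δ η : ℝ) (hδ : 0 < δ) (hη : 0 < η) :
    ∃ N₀ : ℕ, ∀ N : ℕ, N₀ ≤ N → ∀ a b : ℝ, 0 ≤ a → a ≤ b → η * (N : ℝ) ^ 2 ≤ b → (1 + δ) * b ≤ 4 * (N : ℝ) ^ 2 →
    ∃ (Ω : Finset (ℕ × ℕ)) (T : ℝ) (E : ℕ → ℝ), 0 ≤ T ∧
      T ≤ (195 / 1000 * ((1 + δ) * b - a / (1 + δ)) + η * (N : ℝ) ^ 2) / Real.log N ∧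
      (∀ p₁ ∈ pr N (1 / 4) (667 / 1000), ∀ p₂ p₃ : ℕ, p₂.Prime → p₃.Prime → (N : ℝ) ^ (667 / 1000 : ℝ) ≤ p₂ →
        p₂ ≤ p₃ → a < (p₁ * (p₂ * p₃) : ℕ) → ((p₁ * (p₂ * p₃) : ℕ) : ℝ) ≤ b → (p₁, p₂ * p₃) ∈ Ω) ∧
      (∀ q : ℕ, 0 < q → ∀ c : ℕ, c < m₀ * q → c.Coprime (m₀ * q) →
        |((Ω.filter (fun x => x.1 * x.2 ≡ c [MOD (m₀ * q)])).card : ℝ) - T / (Nat.totient (m₀ * q) : ℝ)| ≤ E q) ∧
      ∑ q ∈ Lv' z ((N : ℝ) ^ (999 / 1000 : ℝ)), (κ : ℝ) ^ q.primeFactors.card * E q ≤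
        (N : ℝ) ^ 2 / Real.log N ^ U := by
  have hm0 : 0 < m₀ := Nat.pos_of_ne_zero hm₀.ne_zero
  obtain ⟨X₀, hX₀⟩ := Pool.Agent.Y261.CH.blv m₀ κ (U + 2) hm0 hκ
  obtain ⟨N₁, hN₁⟩ := Pool.Agent.Y48.CH.mass Pool.Agent.Y484.CH.num η hη
  have hld : 0 < Real.log (1 + δ) := Real.log_pos (by linarith)
  have ev1 := ev_lt (2 / 9) (1 / 4) (by norm_num) 2
  have ev2 := ev_lt (0 : ℝ) (2 / 9) (by norm_num) 1
  have ev3 : ∀ᶠ N : ℕ in atTop, 1 / Real.log (1 + δ) + 1 ≤ Real.log N :=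
    (Real.tendsto_log_atTop.comp tendsto_natCast_atTop_atTop).eventually_ge_atTop _
  obtain ⟨N₂, hN₂⟩ := eventually_atTop.1 (ev1.and (ev2.and ev3))
  refine ⟨max (max X₀ N₁) (max N₂ 3), fun N hN a b ha hab hηb hb4 => ?_⟩
  have hNX : X₀ ≤ N := (le_max_left _ _).trans ((le_max_left _ _).trans hN)
  have hNN₁ : N₁ ≤ N := (le_max_right _ _).trans ((le_max_left _ _).trans hN)
  have hNN₂ : N₂ ≤ N := (le_max_left _ _).trans ((le_max_right _ _).trans hN)
  have hN3 : 3 ≤ N := (le_max_right _ _).trans ((le_max_right _ _).trans hN)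
  obtain ⟨e1, e2, e3⟩ := hN₂ N hNN₂
  rw [Real.rpow_zero, mul_one] at e2
  have hNr : (1 : ℝ) < N := by exact_mod_cast (by omega : 1 < N)
  have hN0 : (0 : ℝ) < N := by linarith
  have hb0 : 0 ≤ b := ha.trans hab
  set L := Real.log N with hL
  have hL1 : 1 ≤ L := by
    have : 0 < 1 / Real.log (1 + δ) := by positivity
    linarith
  have hL0 : 0 < L := by linarith
  choose r hr using fun j => exists_r (PP N δ j) (TT N δ a b j)
  set J := ⌈L / Real.log (1 + δ)⌉₊ with hJ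
  have hJ1 : (J : ℝ) ≤ L * L := by
    have h1 := Nat.ceil_lt_add_one (show 0 ≤ L / Real.log (1 + δ) by positivity)
    rw [← hJ] at h1
    have h2 : L / Real.log (1 + δ) = L * (1 / Real.log (1 + δ)) := by ring
    have h3 : L * (1 / Real.log (1 + δ) + 1) ≤ L * L := mul_le_mul_of_nonneg_left e3 hL0.le
    nlinarith
  have hloJ : (N : ℝ) ^ (667 / 1000 : ℝ) ≤ lo N δ J := by
    have h1 : L / Real.log (1 + δ) ≤ J := Nat.le_ceil _
    rw [div_le_iff₀ hld] at h1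
    have h2 : (N : ℝ) ≤ (1 + δ) ^ J := by
      rw [← Real.log_le_log_iff hN0 (by positivity), Real.log_pow]
      exact h1
    unfold lo
    have h3 : (1 : ℝ) ≤ (N : ℝ) ^ (1 / 4 : ℝ) := Real.one_le_rpow hNr.le (by norm_num)
    have h4 : (N : ℝ) ^ (667 / 1000 : ℝ) ≤ N := by
      calc (N : ℝ) ^ (667 / 1000 : ℝ) ≤ (N : ℝ) ^ (1 : ℝ) :=
            Real.rpow_le_rpow_of_exponent_le hNr.le (by norm_num)
        _ = N := Real.rpow_one _
    nlinarith
  set Ω : Finset (ℕ × ℕ) := (range J).biUnion (fun j => PP N δ j ×ˢ TT N δ a b j) with hΩ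
  set T : ℝ := ∑ j ∈ range J, ((PP N δ j).card : ℝ) * (TT N δ a b j).card with hT
  set E : ℕ → ℝ := fun q => ∑ j ∈ range J, er (PP N δ j) (TT N δ a b j) (m₀ * q) (r j (m₀ * q)) with hE
  have hdisj : ∀ i ∈ range J, ∀ j ∈ range J, i ≠ j →
      Disjoint (PP N δ i ×ˢ TT N δ a b i) (PP N δ j ×ˢ TT N δ a b j) := by
    intro i _ j _ hij
    rw [Finset.disjoint_left]
    rintro ⟨x, y⟩ h1 h2
    rw [mem_product] at h1 h2
    exact Finset.disjoint_left.1 (PP_disj (by omega) hδ hij) h1.1 h2.1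
  refine ⟨Ω, T, E, ?_, ?_, ?_, ?_, ?_⟩
  · exact sum_nonneg fun j _ => mul_nonneg (Nat.cast_nonneg _) (Nat.cast_nonneg _)
  · refine (total_le (by omega) hδ hb0 J).trans ?_
    have h1 := hN₁ N hNN₁ (a / (1 + δ)) ((1 + δ) * b) (by positivity) ?_ ?_ hb4
    · exact h1
    · have : a / (1 + δ) ≤ a := div_le_self ha (by linarith)
      nlinarith
    · nlinarith
  · intro p₁ hp₁ p₂ p₃ hp₂ hp₃ h23 h24 hn1 hn2
    obtain ⟨⟨hp1, hp2⟩, hp3, hp4, hp5⟩ := mem_pr.1 hp₁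
    have hp4' := (le_tt_iff (by omega) hp3 _).1 hp4
    have hp5' := (tt_lt_iff (by omega) hp3 _).1 hp5
    have hex : ∃ j, (p₁ : ℝ) < lo N δ j := ⟨J, lt_of_lt_of_le hp5' hloJ⟩
    have hj := Nat.find_spec hex
    have hj0 : Nat.find hex ≠ 0 := by
      intro h0
      rw [h0] at hj
      have : lo N δ 0 = (N : ℝ) ^ (1 / 4 : ℝ) := by unfold lo; simp
      rw [this] at hj
      linarith
    obtain ⟨j, hj'⟩ := Nat.exists_eq_succ_of_ne_zero hj0
    rw [Nat.succ_eq_add_one] at hj'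
    have hjlt : ¬ (p₁ : ℝ) < lo N δ j := Nat.find_min hex (by omega)
    push Not at hjlt
    have hJle : Nat.find hex ≤ J := Nat.find_min' hex (lt_of_lt_of_le hp5' hloJ)
    rw [hj'] at hj
    have hl := lo_pos (by omega : 1 ≤ N) hδ j
    rw [hΩ, mem_biUnion]
    refine ⟨j, mem_range.2 (by omega), ?_⟩
    rw [mem_product]
    have hn0 : (0 : ℝ) < ((p₂ * p₃ : ℕ) : ℝ) := by
      exact_mod_cast Nat.mul_pos hp₂.pos hp₃.pos
    push_cast at hn1 hn2 hn0
    refine ⟨?_, ?_⟩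
    · show p₁ ∈ PP N δ j
      rw [mem_PP (by omega) hδ]
      exact ⟨hp3, (min_le_left _ _).trans hjlt, lt_min hj hp5'⟩
    · show p₂ * p₃ ∈ TT N δ a b j
      unfold TT
      rw [mem_filter, mem_Icc]
      refine ⟨⟨Nat.mul_pos hp₂.pos hp₃.pos, Nat.le_floor ?_⟩, ?_, p₂, p₃, hp₂, hp₃, h23, h24, rfl⟩
      · rw [le_div_iff₀ hl]
        push_cast
        calc (p₂ : ℝ) * p₃ * lo N δ j ≤ (p₂ : ℝ) * p₃ * p₁ := mul_le_mul_of_nonneg_left hjlt hn0.le
          _ = p₁ * (p₂ * p₃) := by ring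
          _ ≤ b := hn2
      · rw [div_lt_iff₀ (by positivity)]
        push_cast
        calc a < p₁ * (p₂ * p₃) := hn1
          _ = (p₂ : ℝ) * p₃ * p₁ := by ring
          _ ≤ (p₂ : ℝ) * p₃ * ((1 + δ) * lo N δ j) := by
              apply mul_le_mul_of_nonneg_left _ hn0.le
              rw [← lo_succ]
              exact hj.le
  · intro q hq c hc1 hc2
    have hpos : 0 < m₀ * q := Nat.mul_pos hm0 hq
    have h1 : (Ω.filter (fun x => x.1 * x.2 ≡ c [MOD (m₀ * q)])).card =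
        ∑ j ∈ range J, ((PP N δ j ×ˢ TT N δ a b j).filter (fun x => x.1 * x.2 ≡ c [MOD (m₀ * q)])).card := by
      rw [hΩ, filter_biUnion, card_biUnion]
      intro i hi j hj hij
      exact (hdisj i hi j hj hij).mono (filter_subset _ _) (filter_subset _ _)
    rw [h1, hT, hE, sum_div]
    push_cast
    rw [← sum_sub_distrib]
    refine (abs_sum_le_sum_abs _ _).trans (sum_le_sum fun j _ => ?_)
    exact (hr j (m₀ * q) hpos).2 c hc1 hc2
  · have hswap : ∑ q ∈ Lv' z ((N : ℝ) ^ (999 / 1000 : ℝ)), (κ : ℝ) ^ q.primeFactors.card * E q =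
        ∑ j ∈ range J, ∑ q ∈ Lv' z ((N : ℝ) ^ (999 / 1000 : ℝ)), (κ : ℝ) ^ q.primeFactors.card *
          er (PP N δ j) (TT N δ a b j) (m₀ * q) (r j (m₀ * q)) := by
      rw [hE, sum_comm]
      apply sum_congr rfl
      intro q _
      rw [mul_sum]
    rw [hswap]
    have hj : ∀ j ∈ range J, ∑ q ∈ Lv' z ((N : ℝ) ^ (999 / 1000 : ℝ)), (κ : ℝ) ^ q.primeFactors.card *
          er (PP N δ j) (TT N δ a b j) (m₀ * q) (r j (m₀ * q)) ≤
          ((N ^ 2 : ℕ) : ℝ) / Real.log ((N ^ 2 : ℕ) : ℝ) ^ (U + 2) := by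
      intro j _
      have h1 := sum_Lv (m₀ := m₀) hm₀ hz hκ ((N : ℝ) ^ (999 / 1000 : ℝ)) (by positivity)
        (fun d => er (PP N δ j) (TT N δ a b j) d (r j d)) (fun d => abs_nonneg _) (r j)
        (fun d hd => (hr j d hd).1)
      refine h1.trans ?_
      have hX2 : X₀ ≤ N ^ 2 := hNX.trans (Nat.le_self_pow (by norm_num) N)
      have h19 : ((N ^ 2 : ℕ) : ℝ) ^ (1 / 9 : ℝ) = (N : ℝ) ^ (2 / 9 : ℝ) := by
        push_cast
        rw [← Real.rpow_natCast, ← Real.rpow_mul hN0.le]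
        norm_num
      have h25 : ((N ^ 2 : ℕ) : ℝ) ^ (2 / 5 : ℝ) = (N : ℝ) ^ (4 / 5 : ℝ) := by
        push_cast
        rw [← Real.rpow_natCast, ← Real.rpow_mul hN0.le]
        norm_num
      have hlo0 := lo_pos (by omega : 1 ≤ N) hδ j
      have hlo1 := lo_pos (by omega : 1 ≤ N) hδ (j + 1)
      have hceil : ∀ i, 1 ≤ ⌈min (lo N δ i) ((N : ℝ) ^ (667 / 1000 : ℝ))⌉₊ := fun i =>
        Nat.one_le_iff_ne_zero.2 (Nat.ceil_pos.2 (lt_min (lo_pos (by omega) hδ i) (by positivity))).ne'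
      have hMcast : ∀ i, (MM N δ i : ℝ) = (⌈min (lo N δ i) ((N : ℝ) ^ (667 / 1000 : ℝ))⌉₊ : ℝ) - 1 := by
        intro i
        unfold MM
        rw [Nat.cast_sub (hceil i), Nat.cast_one]
      have hMle : ∀ i, (MM N δ i : ℝ) ≤ min (lo N δ i) ((N : ℝ) ^ (667 / 1000 : ℝ)) := by
        intro i
        rw [hMcast]
        have := Nat.ceil_lt_add_one (show 0 ≤ min (lo N δ i) ((N : ℝ) ^ (667 / 1000 : ℝ)) from
          (lt_min (lo_pos (by omega) hδ i) (by positivity)).le)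
        linarith
      have hMge : (N : ℝ) ^ (2 / 9 : ℝ) ≤ MM N δ j := by
        rw [hMcast]
        have g1 : (N : ℝ) ^ (1 / 4 : ℝ) ≤ min (lo N δ j) ((N : ℝ) ^ (667 / 1000 : ℝ)) := by
          apply le_min
          · have g2 : lo N δ 0 ≤ lo N δ j := lo_mono (by omega) hδ (Nat.zero_le j)
            have g3 : lo N δ 0 = (N : ℝ) ^ (1 / 4 : ℝ) := by unfold lo; simp
            linarith
          · exact Real.rpow_le_rpow_of_exponent_le hNr.le (by norm_num)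
        have g4 := Nat.le_ceil (min (lo N δ j) ((N : ℝ) ^ (667 / 1000 : ℝ)))
        linarith
      have hX := hX₀ (N ^ 2) hX2 (MM N δ j) (MM N δ (j + 1)) ⌊b / lo N δ j⌋₊
        (by rw [h19]; exact hMge)
        (by
          unfold MM
          apply Nat.sub_le_sub_right
          apply Nat.ceil_mono
          exact min_le_min_right _ (lo_mono (by omega) hδ (Nat.le_succ j)))
        (by
          rw [h25]
          refine (hMle (j + 1)).trans ((min_le_right _ _).trans ?_)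
          exact Real.rpow_le_rpow_of_exponent_le hNr.le (by norm_num))
        (by
          have g1 : ((MM N δ (j + 1) * ⌊b / lo N δ j⌋₊ : ℕ) : ℝ) ≤ 5 * ((N ^ 2 : ℕ) : ℝ) := by
            push_cast
            have g2 : (⌊b / lo N δ j⌋₊ : ℝ) ≤ b / lo N δ j := Nat.floor_le (by positivity)
            have g3 : (MM N δ (j + 1) : ℝ) ≤ (1 + δ) * lo N δ j := by
              rw [← lo_succ]
              exact (hMle (j + 1)).trans (min_le_left _ _)
            calc (MM N δ (j + 1) : ℝ) * ⌊b / lo N δ j⌋₊ ≤ ((1 + δ) * lo N δ j) * (b / lo N δ j) :=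
                  mul_le_mul g3 g2 (Nat.cast_nonneg _) (by positivity)
              _ = (1 + δ) * b := by field_simp
              _ ≤ 5 * (N : ℝ) ^ 2 := by nlinarith [sq_nonneg (N : ℝ)]
          exact_mod_cast g1)
        (TT N δ a b j)
        (by
          intro n hn
          unfold TT at hn
          rw [mem_filter, mem_Icc] at hn
          obtain ⟨⟨g1, g2⟩, -, p₂, p₃, g3, g4, g5, g6, rfl⟩ := hn
          refine ⟨g1, g2, fun p hp => ?_⟩
          rw [h19]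
          have g7 := Nat.prime_of_mem_primeFactors hp
          have g8 := (g7.dvd_mul).1 (Nat.dvd_of_mem_primeFactors hp)
          have g9 : (N : ℝ) ^ (2 / 9 : ℝ) ≤ (N : ℝ) ^ (667 / 1000 : ℝ) :=
            Real.rpow_le_rpow_of_exponent_le hNr.le (by norm_num)
          have g6' : (p₂ : ℝ) ≤ p₃ := by exact_mod_cast g6
          rcases g8 with g8 | g8
          · rw [(Nat.prime_dvd_prime_iff_eq g7 g3).1 g8]
            linarith
          · rw [(Nat.prime_dvd_prime_iff_eq g7 g4).1 g8]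
            linarith)
        (r j)
      rw [rpow_sq] at hX
      refine le_trans (le_of_eq ?_) hX
      apply sum_congr rfl
      intro d _
      rfl
    refine (sum_le_sum hj).trans ?_
    rw [sum_const, card_range, nsmul_eq_mul]
    have hl2 : Real.log ((N ^ 2 : ℕ) : ℝ) = 2 * L := by
      push_cast
      rw [Real.log_pow, hL]
      norm_num
    rw [hl2]
    push_cast
    have h5 : (J : ℝ) * ((N : ℝ) ^ 2 / (2 * L) ^ (U + 2)) ≤ (L * L) * ((N : ℝ) ^ 2 / (L) ^ (U + 2)) := by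
      apply mul_le_mul hJ1 _ (by positivity) (by positivity)
      apply div_le_div_of_nonneg_left (by positivity) (by positivity)
      exact pow_le_pow_left₀ hL0.le (by linarith) _
    refine h5.trans (le_of_eq ?_)
    rw [pow_add]
    field_simp

end Pool.Agent.H76.CH
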