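import Pool.Agent.H76.CH.PartA
import Pool.Agent.H76.CH.Base
import Pool.Graph.R_seed8.Helper923.HMertens
import Pool.Graph.R_seed8.Helper923.PNT

/-!
# Chen's theorem inside sifted sets: auxiliary estimates
-/

set_option autoImplicit false

namespace Pool.Agent.H76.CH

open Finset Filter Pool.Agent.W23.DC Pool.Agent.Y660.RP Pool.Agent.Y843.CH

theorem exp_le_one_sub {x : ℝ} (h0 : 0 ≤ x) (h1 : x ≤ 1 / 2) : Real.exp (-(x + x ^ 2)) ≤ 1 - x := by
  have hy : 0 ≤ x + x ^ 2 := by positivity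
  have h2 := Real.quadratic_le_exp_of_nonneg hy
  rw [Real.exp_neg]
  have h3 : 0 < Real.exp (x + x ^ 2) := Real.exp_pos _
  rw [inv_le_comm₀ h3 (by linarith)]
  refine le_trans ?_ h2
  rw [inv_le_iff_one_le_mul₀ (by linarith)]
  nlinarith [mul_nonneg h0 h0, mul_nonneg (mul_nonneg h0 h0) h0, mul_nonneg (mul_nonneg h0 h0) (sub_nonneg.2 h1),
    mul_nonneg (mul_nonneg (mul_nonneg h0 h0) h0) (sub_nonneg.2 h1),
    mul_nonneg (mul_nonneg (mul_nonneg (mul_nonneg h0 h0) h0) h0) (sub_nonneg.2 h1)]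

theorem sum_inv_sq (N : ℕ) : ∑ n ∈ Icc 2 N, (1 : ℝ) / (n : ℝ) ^ 2 ≤ 1 := by
  have key : ∀ N : ℕ, 1 ≤ N → ∑ n ∈ Icc 2 N, (1 : ℝ) / (n : ℝ) ^ 2 ≤ 1 - 1 / N := by
    intro N hN
    induction N, hN using Nat.le_induction with
    | base => simp
    | succ n hn ih =>
      rw [Finset.sum_Icc_succ_top (by omega)]
      have hnr : (1 : ℝ) ≤ n := by exact_mod_cast hn
      have h2 : (1 : ℝ) / ((n + 1 : ℕ) : ℝ) ^ 2 ≤ 1 / n - 1 / ((n + 1 : ℕ) : ℝ) := by
        push_cast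
        rw [div_sub_div _ _ (by linarith) (by linarith), div_le_div_iff₀ (by positivity) (by positivity)]
        nlinarith
      linarith
  rcases Nat.eq_zero_or_pos N with h | h
  · subst h; simp
  · have := key N h
    have h2 : (0 : ℝ) ≤ 1 / N := by positivity
    linarith

/-- the product of the densities -/
theorem V_low (k z : ℕ) (hz : 2 * k + 2 ≤ z) : ∃ c : ℝ, 0 < c ∧ ∀ N : ℕ, z ≤ N → ∀ ε : ℝ, ∀ g : ℕ → ℝ,
    (∀ p ∈ P1 N z ε, g p = k / ((p : ℝ) - 1)) → c / Real.log N ^ k ≤ ∏ p ∈ P1 N z ε, (1 - g p) := by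
  obtain ⟨C, hC0, hC⟩ := Pool.Agent.Helper923.HMertens.mertens_ratio
  have hz2 : 2 ≤ z := by omega
  have hlz : 0 < Real.log z := Real.log_pos (by exact_mod_cast (by omega : 1 < z))
  refine ⟨Real.log z ^ k * Real.exp (-(k * (C / Real.log z) + (2 * k + 4 * k ^ 2))), by positivity, ?_⟩
  intro N hN ε g hg
  have hlN : 0 < Real.log N := Real.log_pos (by exact_mod_cast (by omega : 1 < N))
  have hx : ∀ p : ℕ, p.Prime → z < p → 0 ≤ (k : ℝ) / ((p : ℝ) - 1) ∧ (k : ℝ) / ((p : ℝ) - 1) ≤ 1 / 2 := by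
    intro p hp hzp
    have h1 : (2 * k + 3 : ℝ) ≤ p := by exact_mod_cast (by omega : 2 * k + 3 ≤ p)
    have hk : (0 : ℝ) ≤ k := Nat.cast_nonneg _
    have h2 : (0 : ℝ) < (p : ℝ) - 1 := by linarith
    refine ⟨by positivity, ?_⟩
    rw [div_le_iff₀ h2]
    linarith
  have hterm : ∀ p : ℕ, p.Prime → z < p → (k : ℝ) / ((p : ℝ) - 1) + ((k : ℝ) / ((p : ℝ) - 1)) ^ 2 ≤
      k * (1 / (p : ℝ)) + (2 * k + 4 * k ^ 2) * (1 / (p : ℝ) ^ 2) := by
    intro p hp hzp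
    have h1 : (2 : ℝ) ≤ p := by exact_mod_cast hp.two_le
    have hk : (0 : ℝ) ≤ k := Nat.cast_nonneg _
    have h2 : (0 : ℝ) < (p : ℝ) - 1 := by linarith
    have h3 : 1 / ((p : ℝ) - 1) ≤ 1 / p + 2 * (1 / (p : ℝ) ^ 2) := by
      have e : 1 / (p : ℝ) + 2 * (1 / (p : ℝ) ^ 2) = (p + 2) / (p : ℝ) ^ 2 := by field_simp
      rw [e, div_le_div_iff₀ h2 (by positivity)]
      nlinarith
    have h4 : (1 / ((p : ℝ) - 1)) ^ 2 ≤ 4 * (1 / (p : ℝ) ^ 2) := by
      rw [div_pow, one_pow, mul_one_div, div_le_div_iff₀ (by positivity) (by positivity)]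
      nlinarith
    have e1 : (k : ℝ) / ((p : ℝ) - 1) = k * (1 / ((p : ℝ) - 1)) := by ring
    rw [e1, mul_pow]
    have h5 := mul_le_mul_of_nonneg_left h3 hk
    have h6 := mul_le_mul_of_nonneg_left h4 (sq_nonneg (k : ℝ))
    nlinarith
  set S := (Ioc z N).filter Nat.Prime with hS
  have hsub : P1 N z ε ⊆ S := by
    intro p hp
    rw [mem_P1] at hp
    rw [hS, mem_filter, mem_Ioc]
    exact ⟨hp.1, hp.2.1⟩
  have hSp : ∀ p ∈ S, p.Prime ∧ z < p ∧ p ≤ N := by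
    intro p hp
    rw [hS, mem_filter, mem_Ioc] at hp
    exact ⟨hp.2, hp.1.1, hp.1.2⟩
  have h1 : ∏ p ∈ P1 N z ε, (1 - g p) = ∏ p ∈ P1 N z ε, (1 - (k : ℝ) / ((p : ℝ) - 1)) :=
    prod_congr rfl fun p hp => by rw [hg p hp]
  have h2 : ∏ p ∈ S, (1 - (k : ℝ) / ((p : ℝ) - 1)) ≤ ∏ p ∈ P1 N z ε, (1 - (k : ℝ) / ((p : ℝ) - 1)) := by
    rw [← Finset.prod_sdiff hsub]
    have k1 : ∏ p ∈ S \ P1 N z ε, (1 - (k : ℝ) / ((p : ℝ) - 1)) ≤ 1 := by
      apply prod_le_one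
      · intro p hp
        obtain ⟨g1, g2, -⟩ := hSp p (mem_sdiff.1 hp).1
        have := (hx p g1 g2).2
        linarith
      · intro p hp
        obtain ⟨g1, g2, -⟩ := hSp p (mem_sdiff.1 hp).1
        have := (hx p g1 g2).1
        linarith
    have k2 : 0 ≤ ∏ p ∈ P1 N z ε, (1 - (k : ℝ) / ((p : ℝ) - 1)) := by
      apply prod_nonneg
      intro p hp
      obtain ⟨g1, g2, -⟩ := hSp p (hsub hp)
      have := (hx p g1 g2).2
      linarith
    exact mul_le_of_le_one_left k2 k1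
  rw [h1]
  refine le_trans ?_ h2
  have h3 : Real.exp (-(∑ p ∈ S, ((k : ℝ) / ((p : ℝ) - 1) + ((k : ℝ) / ((p : ℝ) - 1)) ^ 2))) ≤
      ∏ p ∈ S, (1 - (k : ℝ) / ((p : ℝ) - 1)) := by
    rw [← sum_neg_distrib, Real.exp_sum]
    apply prod_le_prod (fun p _ => (Real.exp_pos _).le)
    intro p hp
    obtain ⟨g1, g2, -⟩ := hSp p hp
    exact exp_le_one_sub (hx p g1 g2).1 (hx p g1 g2).2
  refine le_trans ?_ h3
  have h4 : ∑ p ∈ S, ((k : ℝ) / ((p : ℝ) - 1) + ((k : ℝ) / ((p : ℝ) - 1)) ^ 2) ≤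
      k * (Real.log (Real.log N / Real.log z) + C / Real.log z) + (2 * k + 4 * k ^ 2) := by
    calc ∑ p ∈ S, ((k : ℝ) / ((p : ℝ) - 1) + ((k : ℝ) / ((p : ℝ) - 1)) ^ 2) ≤
        ∑ p ∈ S, (k * (1 / (p : ℝ)) + (2 * k + 4 * k ^ 2) * (1 / (p : ℝ) ^ 2)) := by
          apply sum_le_sum
          intro p hp
          obtain ⟨g1, g2, -⟩ := hSp p hp
          exact hterm p g1 g2
      _ = k * ∑ p ∈ S, (1 / (p : ℝ)) + (2 * k + 4 * k ^ 2) * ∑ p ∈ S, (1 / (p : ℝ) ^ 2) := by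
          rw [sum_add_distrib, mul_sum, mul_sum]
      _ ≤ _ := by
          have g1 := (abs_le.1 (hC z N hz2 hN)).2
          have g2 : ∑ p ∈ S, (1 / (p : ℝ) ^ 2) ≤ 1 := by
            refine le_trans ?_ (sum_inv_sq N)
            apply sum_le_sum_of_subset_of_nonneg
            · intro p hp
              obtain ⟨g1, g2, g3⟩ := hSp p hp
              rw [mem_Icc]
              exact ⟨g1.two_le, g3⟩
            · intro p _ _
              positivity
          have g3 : ∑ p ∈ S, (1 / (p : ℝ)) ≤ Real.log (Real.log N / Real.log z) + C / Real.log z := by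
            rw [hS]
            linarith
          have hk : (0 : ℝ) ≤ k := Nat.cast_nonneg _
          have g4 := mul_le_mul_of_nonneg_left g3 hk
          have g5 : (0 : ℝ) ≤ 2 * k + 4 * k ^ 2 := by positivity
          have g6 := mul_le_mul_of_nonneg_left g2 g5
          linarith
  have h5 : Real.exp (-(k * (Real.log (Real.log N / Real.log z) + C / Real.log z) + (2 * k + 4 * k ^ 2))) ≤
      Real.exp (-(∑ p ∈ S, ((k : ℝ) / ((p : ℝ) - 1) + ((k : ℝ) / ((p : ℝ) - 1)) ^ 2))) :=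
    Real.exp_le_exp.2 (by linarith)
  refine le_trans (le_of_eq ?_) h5
  have e1 : -(k * (Real.log (Real.log N / Real.log z) + C / Real.log z) + (2 * k + 4 * (k : ℝ) ^ 2)) =
      -(k * (C / Real.log z) + (2 * k + 4 * k ^ 2)) - k * Real.log (Real.log N / Real.log z) := by ring
  rw [e1, Real.exp_sub, ← Real.log_pow, Real.exp_log (by positivity), div_pow]
  field_simp

/-- primes in an interval -/
theorem T_low (η : ℝ) (hη : 0 < η) : ∃ B₀ : ℕ, ∀ B : ℕ, B₀ ≤ B → ∀ A : ℕ, A ≤ B → B ≤ 2 * A →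
    ((B : ℝ) - A - η * B) / Real.log B ≤ (((Ioc A B).filter Nat.Prime).card : ℝ) := by
  obtain ⟨δ, hδ0, hδη, hδ1⟩ : ∃ δ : ℝ, 0 < δ ∧ δ ≤ η / 8 ∧ δ ≤ 1 / 2 :=
    ⟨min (η / 8) (1 / 2), lt_min (by positivity) (by norm_num), min_le_left _ _, min_le_right _ _⟩
  have h1 := Metric.tendsto_atTop.1 Pool.Agent.Helper923.PNT.pi_tendsto δ hδ0
  obtain ⟨X, hX⟩ := h1
  have ev := (Real.tendsto_log_atTop.comp (tendsto_natCast_atTop_atTop (R := ℝ))).eventually_ge_atTop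
    (Real.log 2 / δ + 1)
  obtain ⟨B₁, hB₁⟩ := eventually_atTop.1 ev
  refine ⟨max (max B₁ 4) (2 * ⌈|X|⌉₊ + 4), fun B hB A hAB hBA => ?_⟩
  have hBB₁ : B₁ ≤ B := (le_max_left _ _).trans ((le_max_left _ _).trans hB)
  have hB4 : 4 ≤ B := (le_max_right _ _).trans ((le_max_left _ _).trans hB)
  have hBX : 2 * ⌈|X|⌉₊ + 4 ≤ B := (le_max_right _ _).trans hB
  have hlog := hB₁ B hBB₁
  simp only [Function.comp] at hlog
  have hAX : X ≤ A := by
    have h2 : ⌈|X|⌉₊ ≤ A := by omega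
    have h3 : |X| ≤ A := (Nat.le_ceil _).trans (by exact_mod_cast h2)
    exact (le_abs_self X).trans h3
  have hBX' : X ≤ B := hAX.trans (by exact_mod_cast hAB)
  have hA2 : 2 ≤ A := by omega
  have hAr : (2 : ℝ) ≤ A := by exact_mod_cast hA2
  have hBr : (4 : ℝ) ≤ B := by exact_mod_cast hB4
  have hlA : 0 < Real.log A := Real.log_pos (by linarith)
  have hlB : 0 < Real.log B := Real.log_pos (by linarith)
  have hpA := hX A hAX
  have hpB := hX B hBX'
  rw [Real.dist_eq, abs_lt, Nat.floor_natCast] at hpA hpB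
  have gA : (Nat.primeCounting A : ℝ) * Real.log A ≤ (1 + δ) * A := by
    have h2 : (Nat.primeCounting A : ℝ) * Real.log A / A ≤ 1 + δ := by linarith [hpA.2]
    rwa [div_le_iff₀ (by linarith)] at h2
  have gB : (1 - δ) * B ≤ (Nat.primeCounting B : ℝ) * Real.log B := by
    have h2 : 1 - δ ≤ (Nat.primeCounting B : ℝ) * Real.log B / B := by linarith [hpB.1]
    rwa [le_div_iff₀ (by linarith)] at h2
  have hlAB : (1 - δ) * Real.log B ≤ Real.log A := by
    have h2 : Real.log B ≤ Real.log 2 + Real.log A := by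
      rw [← Real.log_mul (by norm_num) (by linarith)]
      apply Real.log_le_log (by linarith)
      exact_mod_cast hBA
    have h3 : Real.log 2 ≤ δ * Real.log B := by
      have h4 : Real.log 2 / δ ≤ Real.log B := by linarith
      rw [div_le_iff₀ hδ0] at h4
      linarith
    linarith
  have hcard : (((Ioc A B).filter Nat.Prime).card : ℝ) = Nat.primeCounting B - Nat.primeCounting A := by
    have h2 : ∀ x : ℕ, Nat.primeCounting x = ((Icc 1 x).filter Nat.Prime).card := by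
      intro x
      rw [Nat.primeCounting, Nat.primeCounting', Nat.count_eq_card_filter_range]
      congr 1
      ext p
      simp only [mem_filter, mem_range, mem_Icc]
      constructor
      · rintro ⟨h3, h4⟩
        exact ⟨⟨h4.one_lt.le, by omega⟩, h4⟩
      · rintro ⟨⟨h3, h4⟩, h5⟩
        exact ⟨by omega, h5⟩
    rw [h2, h2]
    exact pi1_sub hAB
  rw [hcard, div_le_iff₀ hlB]
  have k1 : (Nat.primeCounting A : ℝ) * ((1 - δ) * Real.log B) ≤ (1 + δ) * A :=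
    (mul_le_mul_of_nonneg_left hlAB (Nat.cast_nonneg _)).trans gA
  have k2 : (Nat.primeCounting A : ℝ) * Real.log B ≤ A + 4 * δ * B := by
    have hAB' : (A : ℝ) ≤ B := by exact_mod_cast hAB
    have hB0 : (0 : ℝ) ≤ δ * B := by positivity
    have g1 : δ * A ≤ δ * B := mul_le_mul_of_nonneg_left hAB' hδ0.le
    have g2 : 1 / 2 * (δ * B) ≤ (1 - δ) * (δ * B) := mul_le_mul_of_nonneg_right (by linarith) hB0
    have h3 : (1 + δ) * A ≤ (1 - δ) * (A + 4 * δ * B) := by nlinarith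
    have h4 : (1 - δ) * ((Nat.primeCounting A : ℝ) * Real.log B) ≤ (1 - δ) * (A + 4 * δ * B) := by
      calc (1 - δ) * ((Nat.primeCounting A : ℝ) * Real.log B) =
          (Nat.primeCounting A : ℝ) * ((1 - δ) * Real.log B) := by ring
        _ ≤ (1 + δ) * A := k1
        _ ≤ _ := h3
    exact le_of_mul_le_mul_left h4 (by linarith)
  have hB0 : (0 : ℝ) ≤ B := by linarith
  nlinarith [mul_le_mul_of_nonneg_right hδη hB0]

/-- integers divisible by the square of a prime of middle size -/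
theorem squares (N B A : ℕ) (hN : 16 ≤ N) (h₀ : ℤ) (W : ℕ → Prop) [DecidablePred W]
    (hW : ∀ m, W m → ∃ p : ℕ, p.Prime ∧ (p : ℤ) ^ 2 ∣ (m : ℤ) + h₀ ∧ (N : ℝ) ^ (1 / 4 : ℝ) ≤ p ∧
      (p : ℝ) < (N : ℝ) ^ (667 / 1000 : ℝ)) :
    (((Ioc A B).filter W).card : ℝ) ≤ 2 * ((B : ℝ) / (N : ℝ) ^ (1 / 4 : ℝ)) + (N : ℝ) ^ (667 / 1000 : ℝ) := by
  classical
  have hNr : (16 : ℝ) ≤ N := by exact_mod_cast hN
  set x := (N : ℝ) ^ (1 / 4 : ℝ) with hx
  set y := (N : ℝ) ^ (667 / 1000 : ℝ) with hy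
  have hx2 : 2 ≤ x := by
    calc (2 : ℝ) = (16 : ℝ) ^ (1 / 4 : ℝ) := by
          rw [show (16 : ℝ) = 2 ^ (4 : ℝ) by norm_num, ← Real.rpow_mul (by norm_num)]
          norm_num
      _ ≤ x := Real.rpow_le_rpow (by norm_num) hNr (by norm_num)
  have hy0 : 0 ≤ y := by positivity
  set M := ⌊y⌋₊ with hM
  obtain ⟨m, hm⟩ : ∃ m : ℕ, ⌈x⌉₊ = m + 1 :=
    Nat.exists_eq_succ_of_ne_zero (Nat.ceil_pos.2 (by linarith)).ne'
  have hmx : x ≤ (m : ℝ) + 1 := by
    have := Nat.le_ceil x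
    rw [hm] at this
    exact_mod_cast this
  have hm1 : (1 : ℝ) ≤ m := by linarith
  have hm0 : m ≠ 0 := by
    rintro rfl
    norm_num at hm1
  set P := (Ioc m M) with hP
  have hsub : (Ioc A B).filter W ⊆ P.biUnion (fun p => (Ioc A B).filter (fun m : ℕ => (p : ℤ) ^ 2 ∣ (m : ℤ) + h₀)) := by
    intro m' hm'
    rw [mem_filter] at hm'
    obtain ⟨p, h1, h2, h3, h4⟩ := hW m' hm'.2
    rw [mem_biUnion]
    refine ⟨p, ?_, ?_⟩
    · rw [hP, mem_Ioc]
      have h5 := Nat.ceil_le.2 h3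
      exact ⟨by omega, Nat.le_floor h4.le⟩
    · rw [mem_filter]
      exact ⟨hm'.1, h2⟩
  have hcard : ∀ p ∈ P, (((Ioc A B).filter (fun m : ℕ => (p : ℤ) ^ 2 ∣ (m : ℤ) + h₀)).card : ℝ) ≤
      (B : ℝ) * ((p : ℝ) ^ 2)⁻¹ + 1 := by
    intro p hp
    rw [hP, mem_Ioc] at hp
    have hp2 : 0 < p := by omega
    obtain ⟨c, hc1, hc2⟩ := exists_class (p ^ 2) (by positivity) h₀
    have h1 : (Ioc A B).filter (fun m : ℕ => (p : ℤ) ^ 2 ∣ (m : ℤ) + h₀) ⊆
        (Ioc 0 (0 + B)).filter (fun m => m ≡ c [MOD p ^ 2]) := by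
      intro m hm
      rw [mem_filter, mem_Ioc] at hm ⊢
      refine ⟨⟨by omega, by omega⟩, ?_⟩
      have h2 := dvd_sub hm.2 (by exact_mod_cast hc2 : (p : ℤ) ^ 2 ∣ (c : ℤ) + h₀)
      have e : (m : ℤ) + h₀ - ((c : ℤ) + h₀) = (m : ℤ) - c := by ring
      rw [e] at h2
      exact (Nat.modEq_iff_dvd.2 (by exact_mod_cast h2)).symm
    have h3 := Pool.Agent.Y843.QD.card_class 0 B (p ^ 2) c (by positivity)
    have h4 := (abs_le.1 h3).2
    have h5 : (((Ioc A B).filter (fun m : ℕ => (p : ℤ) ^ 2 ∣ (m : ℤ) + h₀)).card : ℝ) ≤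
        (((Ioc 0 (0 + B)).filter (fun m => m ≡ c [MOD p ^ 2])).card : ℝ) := by
      exact_mod_cast card_le_card h1
    have e : (B : ℝ) * ((p : ℝ) ^ 2)⁻¹ = (B : ℝ) / ((p ^ 2 : ℕ) : ℝ) := by
      push_cast
      ring
    rw [e]
    linarith
  have hB0 : (0 : ℝ) ≤ B := Nat.cast_nonneg _
  calc (((Ioc A B).filter W).card : ℝ) ≤
      ((P.biUnion (fun p => (Ioc A B).filter (fun m : ℕ => (p : ℤ) ^ 2 ∣ (m : ℤ) + h₀))).card : ℝ) := by
        exact_mod_cast card_le_card hsub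
    _ ≤ ∑ p ∈ P, (((Ioc A B).filter (fun m : ℕ => (p : ℤ) ^ 2 ∣ (m : ℤ) + h₀)).card : ℝ) := by
        exact_mod_cast card_biUnion_le
    _ ≤ ∑ p ∈ P, ((B : ℝ) * ((p : ℝ) ^ 2)⁻¹ + 1) := sum_le_sum hcard
    _ = B * ∑ p ∈ P, ((p : ℝ) ^ 2)⁻¹ + P.card := by
        rw [sum_add_distrib, mul_sum]
        simp
    _ ≤ 2 * ((B : ℝ) / x) + y := by
        have h1 : (P.card : ℝ) ≤ y := by
          rw [hP, Nat.card_Ioc]
          have h2 : ((M - m : ℕ) : ℝ) ≤ M := by exact_mod_cast Nat.sub_le _ _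
          have h3 : (M : ℝ) ≤ y := Nat.floor_le hy0
          linarith
        have h2 : ∑ p ∈ P, ((p : ℝ) ^ 2)⁻¹ ≤ 2 / x := by
          rcases Nat.lt_or_ge M m with h | h
          · rw [hP, Ioc_eq_empty (by omega), sum_empty]
            positivity
          · have h3 := sum_Ioc_inv_sq_le_sub (α := ℝ) hm0 h
            have h4 : (0 : ℝ) ≤ (M : ℝ)⁻¹ := by positivity
            have h5 : (m : ℝ)⁻¹ ≤ 2 / x := by
              rw [inv_eq_one_div, div_le_div_iff₀ (by linarith) (by linarith)]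
              linarith
            linarith
        have h3 := mul_le_mul_of_nonneg_left h2 hB0
        have e : (B : ℝ) * (2 / x) = 2 * (B / x) := by ring
        linarith

end Pool.Agent.H76.CH
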