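import Pool.Agent.H76.CH.Comb

/-!
# Chen's theorem inside sifted sets: switching
-/

set_option autoImplicit false

namespace Pool.Agent.H76.CH

open Finset Filter Pool.Agent.W23.DC Pool.Agent.Y660.RP Pool.Agent.Y843.CH

/-- the shifts of `W = w + h₀` -/
def H2 (H : Finset ℤ) (h₀ : ℤ) : Finset ℤ := insert (-h₀) ((H.erase h₀).image (fun h => h - h₀))

theorem mem_H2 {H : Finset ℤ} {h₀ h : ℤ} : h ∈ H2 H h₀ ↔ h = -h₀ ∨ (h + h₀ ∈ H ∧ h ≠ 0) := by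
  unfold H2
  rw [mem_insert, mem_image]
  constructor
  · rintro (h1 | ⟨a, h1, rfl⟩)
    · exact Or.inl h1
    · rw [mem_erase] at h1
      refine Or.inr ⟨by simpa using h1.2, fun h2 => h1.1 (by linarith)⟩
  · rintro (h1 | ⟨h1, h2⟩)
    · exact Or.inl h1
    · refine Or.inr ⟨h + h₀, ?_, by ring⟩
      rw [mem_erase]
      exact ⟨fun h3 => h2 (by linarith), h1⟩

theorem card_H2 {H : Finset ℤ} {h₀ : ℤ} (hH : h₀ ∈ H) (h0 : (0 : ℤ) ∉ H) : (H2 H h₀).card = H.card := by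
  unfold H2
  rw [card_insert_of_notMem, card_image_of_injective, card_erase_of_mem hH]
  · have := card_pos.2 ⟨h₀, hH⟩
    omega
  · intro a b h
    have : a - h₀ = b - h₀ := h
    linarith
  · rw [mem_image]
    rintro ⟨a, h1, h2⟩
    rw [mem_erase] at h1
    have : a = 0 := by linarith
    rw [this] at h1
    exact h0 h1.2

/-- large primes satisfy the hypotheses -/
theorem big_of {H : Finset ℤ} {K z : ℕ} (hK : ∀ h ∈ H, |h| ≤ K) (h0 : (0 : ℤ) ∉ H) (hz : 2 * K ≤ z) : Big H z := by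
  intro p _ hzp
  have hsmall : ∀ x : ℤ, |x| < p → (p : ℤ) ∣ x → x = 0 := by
    intro x hx hd
    exact Int.eq_zero_of_abs_lt_dvd hd hx
  refine ⟨fun h hh hd => ?_, fun h hh h' hh' hd => ?_⟩
  · have h1 := hK h hh
    have : h = 0 := hsmall h (by omega) hd
    rw [this] at hh
    exact h0 hh
  · have h1 := hK h hh
    have h2 := hK h' hh'
    have h3 : |h - h'| ≤ |h| + |h'| := abs_sub h h'
    have := hsmall (h - h') (by omega) hd
    linarith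

theorem H2_le {H : Finset ℤ} {h₀ : ℤ} {K : ℕ} (hH : h₀ ∈ H) (hK : ∀ h ∈ H, |h| ≤ K) :
    ∀ h ∈ H2 H h₀, |h| ≤ ((2 * K : ℕ) : ℤ) := by
  intro h hh
  have h0 := hK h₀ hH
  rw [mem_H2] at hh
  push_cast
  rcases hh with rfl | ⟨h1, -⟩
  · rw [abs_neg]
    have := abs_nonneg h₀
    linarith
  · have h2 := hK _ h1
    have e : h = (h + h₀) - h₀ := by ring
    rw [e]
    have := abs_sub (h + h₀) h₀
    linarith

theorem H2_zero {H : Finset ℤ} {h₀ : ℤ} (hH : h₀ ∈ H) (h0 : (0 : ℤ) ∉ H) : (0 : ℤ) ∉ H2 H h₀ := by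
  rw [mem_H2]
  rintro (h1 | ⟨-, h2⟩)
  · have : h₀ = 0 := by linarith
    rw [this] at hH
    exact h0 hH
  · exact h2 rfl

open Classical in
/-- **Switching.** -/
theorem three_le {H : Finset ℤ} {h₀ : ℤ} {N z A B m₀ a₀ a₂ : ℕ} {ε : ℝ} (hN2 : 2 ≤ N)
    (hzN : (z : ℝ) < (N : ℝ) ^ ε) (hNA : N ≤ A)
    (ha₂ : (m₀ : ℤ) ∣ (a₂ : ℤ) - (a₀ + h₀)) (Ω : Finset (ℕ × ℕ))
    (hΩ : ∀ p₁ ∈ pr N (1 / 4) (667 / 1000), ∀ p₂ p₃ : ℕ, p₂.Prime → p₃.Prime → (N : ℝ) ^ (667 / 1000 : ℝ) ≤ p₂ →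
        p₂ ≤ p₃ → (A : ℝ) + h₀ < (p₁ * (p₂ * p₃) : ℕ) → ((p₁ * (p₂ * p₃) : ℕ) : ℝ) ≤ (B : ℝ) + h₀ →
        (p₁, p₂ * p₃) ∈ Ω) :
    (Three H h₀ N z A B m₀ a₀ ε).card ≤
      ((Ω.filter (fun x => x.1 * x.2 ≡ a₂ [MOD m₀])).filter (fun x =>
        (∀ p ∈ P1 N z ε, ¬ p ∣ vv (H2 H h₀) (-h₀) N z ε (x.1 * x.2)) ∧
        ∀ p ∈ pr N ε (7 / 20), ¬ p ∣ vv (H2 H h₀) (-h₀) N z ε (x.1 * x.2))).card := by
  have hNr : (1 : ℝ) < N := by exact_mod_cast (by omega : 1 < N)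
  refine le_trans (card_le_card (t := ((Ω.filter (fun x => x.1 * x.2 ≡ a₂ [MOD m₀])).filter (fun x =>
        (∀ p ∈ P1 N z ε, ¬ p ∣ vv (H2 H h₀) (-h₀) N z ε (x.1 * x.2)) ∧
        ∀ p ∈ pr N ε (7 / 20), ¬ p ∣ vv (H2 H h₀) (-h₀) N z ε (x.1 * x.2))).image
        (fun x => (((x.1 * x.2 : ℕ) : ℤ) - h₀).toNat)) ?_) card_image_le
  intro w hw
  unfold Three at hw
  rw [mem_filter] at hw
  obtain ⟨hw1, p₁, p₂, p₃, g1, g2, g3, g4, g5, g6⟩ := hw
  unfold Ωs at hw1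
  rw [mem_filter, mem_filter, mem_filter, mem_Ioc] at hw1
  obtain ⟨⟨⟨⟨k1, k2⟩, k3⟩, k4⟩, k5⟩ := hw1
  rw [mem_image]
  refine ⟨(p₁, p₂ * p₃), ?_, ?_⟩
  swap
  · show (((p₁ * (p₂ * p₃) : ℕ) : ℤ) - h₀).toNat = w
    rw [← g6]
    omega
  have hW : ((p₁ * (p₂ * p₃) : ℕ) : ℝ) = (w : ℝ) + h₀ := by
    have : (((w : ℤ) + h₀ : ℤ) : ℝ) = (((p₁ * (p₂ * p₃) : ℕ) : ℤ) : ℝ) := by rw [g6]
    push_cast at this ⊢
    linarith
  rw [mem_filter, mem_filter]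
  refine ⟨⟨hΩ p₁ g1 p₂ p₃ g2 g3 g4 g5 ?_ ?_, ?_⟩, ?_, ?_⟩
  · rw [hW]
    have : (A : ℝ) < w := by exact_mod_cast k1
    linarith
  · rw [hW]
    have : (w : ℝ) ≤ B := by exact_mod_cast k2
    linarith
  · show p₁ * (p₂ * p₃) ≡ a₂ [MOD m₀]
    rw [Nat.modEq_iff_dvd, ← g6]
    have h1 : (m₀ : ℤ) ∣ (a₀ : ℤ) - w := Nat.modEq_iff_dvd.1 k4
    have := dvd_add ha₂ h1
    have e : (a₂ : ℤ) - (a₀ + h₀) + ((a₀ : ℤ) - w) = a₂ - (w + h₀) := by ring
    rwa [e] at this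
  · intro p hp
    obtain ⟨⟨h1, h2⟩, h3, h4⟩ := mem_P1.1 hp
    show ¬ p ∣ vv (H2 H h₀) (-h₀) N z ε (p₁ * (p₂ * p₃))
    rw [dvd_vv h3 h1 h2]
    unfold cl
    rw [if_pos h4, mem_clH h3.pos, ← g6]
    rintro ⟨h, hh, hd⟩
    rw [mem_H2] at hh
    rcases hh with rfl | ⟨hh, -⟩
    · have e : (w : ℤ) + h₀ + -h₀ = w := by ring
      rw [e] at hd
      have h5 : p ∣ w := by exact_mod_cast hd
      have := (Nat.prime_dvd_prime_iff_eq h3 k3).1 h5
      omega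
    · apply k5 p hp
      rw [dvd_vv h3 h1 h2]
      unfold cl
      rw [if_pos h4, mem_clH h3.pos]
      refine ⟨h + h₀, hh, ?_⟩
      have e : (w : ℤ) + (h + h₀) = (w : ℤ) + h₀ + h := by ring
      rw [e]
      exact hd
  · intro p hp
    obtain ⟨⟨h1, h2⟩, h3, h4, h5⟩ := mem_pr.1 hp
    have h4' := (le_tt_iff hN2 h3 _).1 h4
    have hzp : z < p := by
      have : (z : ℝ) < p := by linarith
      exact_mod_cast this
    show ¬ p ∣ vv (H2 H h₀) (-h₀) N z ε (p₁ * (p₂ * p₃))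
    rw [dvd_vv h3 hzp h2]
    unfold cl
    rw [if_neg (not_lt.2 h4'), mem_clH h3.pos, ← g6]
    rintro ⟨h, hh, hd⟩
    rw [mem_singleton] at hh
    rw [hh] at hd
    have e : (w : ℤ) + h₀ + -h₀ = w := by ring
    rw [e] at hd
    have h5 : p ∣ w := by exact_mod_cast hd
    have := (Nat.prime_dvd_prime_iff_eq h3 k3).1 h5
    omega

/-- the main terms -/
theorem bracket {T₁ T₂ L B D K lb η θ s X N2 : ℝ} (hL : 0 < L) (hK : 0 < K) (hθ : 0 < θ) (hθ1 : θ ≤ 1)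
    (hs : s = θ / 10000) (h1 : (D - s * B) / ((2 + s) * L) ≤ T₁) (h2 : T₂ ≤ (195 / 1000 * X + s * N2) / L)
    (hX : X ≤ D + 4 * s * B) (hN2 : N2 ≤ B) (hD1 : θ * B ≤ D) (hD2 : D ≤ B) (hB : 0 < B) (hη : η = K / 2000)
    (hlb : 197 / 1000 ≤ lb) :
    5 / 10000 * θ * K * B / L ≤ T₁ * (K * lb - η) - 1 / 2 * (T₂ * (K + η)) := by
  have hs0 : 0 < s := by rw [hs]; positivity
  have hs1 : s ≤ 1 / 10000 := by rw [hs]; linarith
  have a1 : 1965 / 10000 * K ≤ K * lb - η := by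
    rw [hη]
    have := mul_le_mul_of_nonneg_left hlb hK.le
    linarith
  have hDs : 0 ≤ D - s * B := by
    have : s * B ≤ θ * B := mul_le_mul_of_nonneg_right (by rw [hs]; linarith) hB.le
    linarith
  have a2 : (D - s * B) / L * (1 / 2 - s / 4) ≤ T₁ := by
    refine le_trans ?_ h1
    have e : (D - s * B) / ((2 + s) * L) = (D - s * B) / L * (1 / (2 + s)) := by
      field_simp
    rw [e]
    apply mul_le_mul_of_nonneg_left _ (by positivity)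
    rw [le_div_iff₀ (by linarith)]
    nlinarith [sq_nonneg s]
  have hT₁ : 0 ≤ T₁ := by
    refine le_trans ?_ a2
    have : 0 ≤ 1 / 2 - s / 4 := by linarith
    positivity
  have a3 : (D - s * B) / L * (1 / 2 - s / 4) * (1965 / 10000 * K) ≤ T₁ * (K * lb - η) :=
    mul_le_mul a2 a1 (by positivity) hT₁
  have a4 : T₂ * (K + η) ≤ (195 / 1000 * (D + 4 * s * B) + s * B) / L * (10005 / 10000 * K) := by
    have e : K + η = 10005 / 10000 * K := by rw [hη]; ring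
    rw [e]
    apply mul_le_mul_of_nonneg_right _ (by positivity)
    refine h2.trans ?_
    apply div_le_div_of_nonneg_right _ hL.le
    have := mul_le_mul_of_nonneg_left hN2 hs0.le
    linarith
  have a5 : 5 / 10000 * θ * K * B ≤ (D - s * B) * (1 / 2 - s / 4) * (1965 / 10000 * K) -
      1 / 2 * ((195 / 1000 * (D + 4 * s * B) + s * B) * (10005 / 10000 * K)) := by
    have e : (D - s * B) * (1 / 2 - s / 4) * (1965 / 10000 * K) -
      1 / 2 * ((195 / 1000 * (D + 4 * s * B) + s * B) * (10005 / 10000 * K)) - 5 / 10000 * θ * K * B =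
      K * ((D - s * B) * (1 / 2 - s / 4) * (1965 / 10000) -
      1 / 2 * ((195 / 1000 * (D + 4 * s * B) + s * B) * (10005 / 10000)) - 5 / 10000 * θ * B) := by ring
    have key : 0 ≤ (D - s * B) * (1 / 2 - s / 4) * (1965 / 10000) -
      1 / 2 * ((195 / 1000 * (D + 4 * s * B) + s * B) * (10005 / 10000)) - 5 / 10000 * θ * B := by
      have hsB : 0 ≤ s * B := by positivity
      have b1 : s * D ≤ s * B := mul_le_mul_of_nonneg_left hD2 hs0.le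
      have b2 : 0 ≤ s * (s * B) := by positivity
      have b3 : s * B = θ * B / 10000 := by rw [hs]; ring
      nlinarith
    have := mul_nonneg hK.le key
    linarith
  have a6 := div_le_div_of_nonneg_right a5 hL.le
  have e6 : ((D - s * B) * (1 / 2 - s / 4) * (1965 / 10000 * K) -
      1 / 2 * ((195 / 1000 * (D + 4 * s * B) + s * B) * (10005 / 10000 * K))) / L =
      (D - s * B) / L * (1 / 2 - s / 4) * (1965 / 10000 * K) -
      1 / 2 * ((195 / 1000 * (D + 4 * s * B) + s * B) / L * (10005 / 10000 * K)) := by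
    field_simp
  rw [e6] at a6
  linarith

end Pool.Agent.H76.CH
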